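import Pool.Agent.H110R3.BihDefs

set_option autoImplicit false

open scoped ContDiff

namespace Pool.Agent.H110R3.Bih

/-- the mean curvature function -/
noncomputable def f (r : ℝ) : ℝ := 3 / 2 - 1 / (1 + r ^ 2)
noncomputable def f1 (r : ℝ) : ℝ := 2 * r / (1 + r ^ 2) ^ 2
noncomputable def f2 (r : ℝ) : ℝ := 2 * (1 - 3 * r ^ 2) / (1 + r ^ 2) ^ 3

noncomputable def ps (r : ℝ) : ℝ := 3 / 2 * r ^ 4 + r ^ 2 / 2 + 4 / 3 * Real.log (1 + r ^ 2)
noncomputable def ps1 (r : ℝ) : ℝ := 6 * r ^ 3 + r + 8 / 3 * r / (1 + r ^ 2)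
noncomputable def ps2 (r : ℝ) : ℝ := 18 * r ^ 2 + 1 + 8 / 3 * (1 - r ^ 2) / (1 + r ^ 2) ^ 2

lemma one_add_pos (r : ℝ) : 0 < 1 + r ^ 2 := by positivity

lemma hasDerivAt_f (r : ℝ) : HasDerivAt f (f1 r) r := by
  have h0 := (one_add_pos r).ne'
  have h1 : HasDerivAt (fun r : ℝ => 1 + r ^ 2) (2 * r) r := by
    simpa using (hasDerivAt_pow 2 r).const_add 1
  have h2 := (((hasDerivAt_const r (1 : ℝ)).fun_div h1 h0)).const_sub (3 / 2 : ℝ)
  refine h2.congr_deriv ?_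
  unfold f1
  field_simp
  ring

lemma hasDerivAt_f1 (r : ℝ) : HasDerivAt f1 (f2 r) r := by
  have h0 := (one_add_pos r).ne'
  have h1 : HasDerivAt (fun r : ℝ => (1 + r ^ 2) ^ 2) (2 * (1 + r ^ 2) * (2 * r)) r := by
    have : HasDerivAt (fun r : ℝ => 1 + r ^ 2) (2 * r) r := by
      simpa using (hasDerivAt_pow 2 r).const_add 1
    simpa using this.fun_pow 2
  have h3 : HasDerivAt (fun r : ℝ => 2 * r) 2 r := by
    simpa using (hasDerivAt_id r).const_mul 2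
  have h2 := h3.fun_div h1 (pow_ne_zero 2 h0)
  refine h2.congr_deriv ?_
  unfold f2
  field_simp
  ring

lemma hasDerivAt_ps (r : ℝ) : HasDerivAt ps (ps1 r) r := by
  have h0 := (one_add_pos r).ne'
  have h1 : HasDerivAt (fun r : ℝ => 1 + r ^ 2) (2 * r) r := by
    simpa using (hasDerivAt_pow 2 r).const_add 1
  have h2 := (((hasDerivAt_pow 4 r).const_mul (3 / 2 : ℝ)).fun_add ((hasDerivAt_pow 2 r).div_const 2)).fun_add
    ((h1.log h0).const_mul (4 / 3 : ℝ))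
  refine h2.congr_deriv ?_
  unfold ps1
  field_simp
  ring

lemma hasDerivAt_ps1 (r : ℝ) : HasDerivAt ps1 (ps2 r) r := by
  have h0 := (one_add_pos r).ne'
  have h1 : HasDerivAt (fun r : ℝ => 1 + r ^ 2) (2 * r) r := by
    simpa using (hasDerivAt_pow 2 r).const_add 1
  have h3 : HasDerivAt (fun r : ℝ => 8 / 3 * r) (8 / 3) r := by
    simpa using (hasDerivAt_id r).const_mul (8 / 3 : ℝ)
  have h2 := (((hasDerivAt_pow 3 r).const_mul (6 : ℝ)).fun_add (hasDerivAt_id r)).fun_add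
    (h3.fun_div h1 h0)
  refine h2.congr_deriv ?_
  unfold ps2
  field_simp
  ring

lemma f_pos (r : ℝ) : 1 / 2 ≤ f r := by
  unfold f
  have h0 := one_add_pos r
  have : 1 / (1 + r ^ 2) ≤ 1 := by
    rw [div_le_one h0]; nlinarith [sq_nonneg r]
  linarith

lemma f_lt (r : ℝ) : f r < 3 / 2 := by
  unfold f
  have : 0 < 1 / (1 + r ^ 2) := by positivity
  linarith

lemma ps_nonneg (r : ℝ) : 0 ≤ ps r := by
  unfold ps
  have : 0 ≤ Real.log (1 + r ^ 2) := Real.log_nonneg (by nlinarith [sq_nonneg r])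
  positivity

/-- the ordinary differential equation satisfied by the mean curvature -/
lemma ode (r : ℝ) : f2 r + 3 * ps1 r * f1 r = 8 * f r ^ 3 + 4 * f r ^ 2 := by
  unfold f f1 f2 ps1
  have h0 := (one_add_pos r).ne'
  field_simp
  ring

lemma aux_nonneg (r : ℝ) : 0 ≤ f2 r + f1 r * ps1 r := by
  have : f2 r + f1 r * ps1 r = (2 + 4 / 3 * r ^ 2 + 14 * r ^ 4 + 12 * r ^ 6) / (1 + r ^ 2) ^ 3 := by
    unfold f1 f2 ps1
    have h0 := (one_add_pos r).ne'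
    field_simp
    ring
  rw [this]
  positivity

/-- the convexity inequality -/
lemma convex_ineq (r : ℝ) : f1 r ^ 2 ≤ f r ^ 2 * (ps2 r + ps1 r ^ 2 - (f2 r + f1 r * ps1 r)) := by
  have h0 := one_add_pos r
  have h0' := h0.ne'
  have hr : 0 ≤ r ^ 2 := sq_nonneg r
  have h1 : 0 ≤ ps1 r ^ 2 - f1 r * ps1 r := by
    have : ps1 r ^ 2 - f1 r * ps1 r = r ^ 2 * ((18 * r ^ 4 + 21 * r ^ 2 + 11) * ((18 * r ^ 4 + 21 * r ^ 2 + 11) * (1 + r ^ 2) - 6)) / (9 * (1 + r ^ 2) ^ 3) := by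
      unfold f1 ps1
      field_simp
      ring
    rw [this]
    have h2 : 0 ≤ (18 * r ^ 4 + 21 * r ^ 2 + 11) * (1 + r ^ 2) - 6 := by
      have : (18 * r ^ 4 + 21 * r ^ 2 + 11) * (1 + r ^ 2) - 6 = 18 * r ^ 6 + 39 * r ^ 4 + 32 * r ^ 2 + 5 := by ring
      rw [this]; positivity
    positivity
  have h2 : 4 * f1 r ^ 2 ≤ ps2 r - f2 r := by
    have : ps2 r - f2 r - 4 * f1 r ^ 2 = ((18 * r ^ 2 + 1) * (1 + r ^ 2) ^ 4 + (2 / 3 + 6 * r ^ 2 - 8 / 3 * r ^ 4) * (1 + r ^ 2) - 16 * r ^ 2) / (1 + r ^ 2) ^ 4 := by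
      unfold f1 f2 ps2
      field_simp
      ring
    have h3 : 0 ≤ ps2 r - f2 r - 4 * f1 r ^ 2 := by
      rw [this]
      apply div_nonneg _ (by positivity)
      have : (18 * r ^ 2 + 1) * (1 + r ^ 2) ^ 4 + (2 / 3 + 6 * r ^ 2 - 8 / 3 * r ^ 4) * (1 + r ^ 2) - 16 * r ^ 2
        = 5 / 3 + (22 - 16 + 20 / 3) * r ^ 2 + (78 + 10 / 3) * r ^ 4 + (112 - 8 / 3) * r ^ 6 + 73 * r ^ 8 + 18 * r ^ 10 := by ring
      rw [this]
      positivity
    linarith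
  have h3 : 1 / 4 ≤ f r ^ 2 := by nlinarith [f_pos r]
  have h4 : 4 * f1 r ^ 2 ≤ ps2 r + ps1 r ^ 2 - (f2 r + f1 r * ps1 r) := by linarith
  have h5 : 0 ≤ f1 r ^ 2 := sq_nonneg _
  nlinarith

end Pool.Agent.H110R3.Bih
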