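import Pool.Agent.H110R3.Bih1

set_option autoImplicit false

open scoped ContDiff

namespace Pool.Agent.H110R3.Bih

/-- Euclidean 3-space. -/
abbrev V := EuclideanSpace ℝ (Fin 3)

/-- the model of `N = ℝ⁵` -/
abbrev E5 := ℝ × ℝ × V
/-- the model of `M = ℝ⁴` -/
abbrev E4 := ℝ × V

/-- the differentials of the first two coordinates -/
noncomputable def dt : E5 →L[ℝ] ℝ := ContinuousLinearMap.fst ℝ ℝ (ℝ × V)
noncomputable def dr : E5 →L[ℝ] ℝ :=
  (ContinuousLinearMap.fst ℝ ℝ V).comp (ContinuousLinearMap.snd ℝ ℝ (ℝ × V))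

@[simp] lemma dt_apply (u : E5) : dt u = u.1 := rfl
@[simp] lemma dr_apply (u : E5) : dr u = u.2.1 := rfl

noncomputable def yy (p : E5) : ℝ := Real.exp (-p.1)
noncomputable def A2 (p : E5) : ℝ := Real.exp (-2 * (f p.2.1 * (1 - yy p)))
noncomputable def W2 (p : E5) : ℝ := Real.exp (2 * ps p.2.1)
noncomputable def B2 (p : E5) : ℝ := W2 p * A2 p

lemma hd_t (p : E5) : HasFDerivAt (fun p : E5 => p.1) dt p := dt.hasFDerivAt
lemma hd_r (p : E5) : HasFDerivAt (fun p : E5 => p.2.1) dr p := dr.hasFDerivAt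

lemma hd_y (p : E5) : HasFDerivAt yy (-yy p • dt) p := by
  have h := ((hd_t p).fun_neg).exp
  refine h.congr_fderiv ?_
  ext u <;> simp [yy]

lemma hd_comp (c : ℝ → ℝ) (c' : ℝ) (p : E5) (h : HasDerivAt c c' p.2.1) :
    HasFDerivAt (fun p : E5 => c p.2.1) (c' • dr) p := by
  have := h.comp_hasFDerivAt p (hd_r p)
  exact this

lemma hd_f (p : E5) : HasFDerivAt (fun p : E5 => f p.2.1) (f1 p.2.1 • dr) p :=
  hd_comp _ _ _ (hasDerivAt_f _)
lemma hd_f1 (p : E5) : HasFDerivAt (fun p : E5 => f1 p.2.1) (f2 p.2.1 • dr) p :=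
  hd_comp _ _ _ (hasDerivAt_f1 _)
lemma hd_ps (p : E5) : HasFDerivAt (fun p : E5 => ps p.2.1) (ps1 p.2.1 • dr) p :=
  hd_comp _ _ _ (hasDerivAt_ps _)
lemma hd_ps1 (p : E5) : HasFDerivAt (fun p : E5 => ps1 p.2.1) (ps2 p.2.1 • dr) p :=
  hd_comp _ _ _ (hasDerivAt_ps1 _)

lemma hd_A2 (p : E5) : HasFDerivAt A2
    ((-2 * (f p.2.1 * yy p) * A2 p) • dt + (-2 * (f1 p.2.1 * (1 - yy p)) * A2 p) • dr) p := by
  have h := ((((hd_f p).fun_mul ((hd_y p).const_sub 1))).const_mul (-2)).exp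
  refine h.congr_fderiv ?_
  ext u <;> simp [A2] <;> ring

lemma hd_W2 (p : E5) : HasFDerivAt W2 ((2 * ps1 p.2.1 * W2 p) • dr) p := by
  have h := ((hd_ps p).const_mul 2).exp
  refine h.congr_fderiv ?_
  ext u <;> simp [W2] <;> ring

lemma hd_B2 (p : E5) : HasFDerivAt B2
    ((-2 * (f p.2.1 * yy p) * B2 p) • dt +
      ((2 * ps1 p.2.1 - 2 * (f1 p.2.1 * (1 - yy p))) * B2 p) • dr) p := by
  have h := (hd_W2 p).fun_mul (hd_A2 p)
  refine h.congr_fderiv ?_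
  ext u <;> simp [B2] <;> ring

/-- coefficients of the connection -/
noncomputable def c1 (p : E5) : ℝ := f p.2.1 * yy p * A2 p
noncomputable def c2 (p : E5) : ℝ := f p.2.1 * yy p * B2 p
noncomputable def c3 (p : E5) : ℝ := -(f p.2.1 * yy p)
noncomputable def c4 (p : E5) : ℝ := -(f1 p.2.1 * (1 - yy p))
noncomputable def c6 (p : E5) : ℝ := ps1 p.2.1 - f1 p.2.1 * (1 - yy p)
noncomputable def c5 (p : E5) : ℝ := -(c6 p * W2 p)

lemma hd_c1 (p : E5) : HasFDerivAt c1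
    ((-(f p.2.1 * yy p * A2 p) - 2 * (f p.2.1 * yy p) ^ 2 * A2 p) • dt +
     (f1 p.2.1 * yy p * A2 p - 2 * f p.2.1 * yy p * (f1 p.2.1 * (1 - yy p)) * A2 p) • dr) p := by
  have h := ((hd_f p).fun_mul (hd_y p)).fun_mul (hd_A2 p)
  refine h.congr_fderiv ?_
  ext u <;> simp <;> ring

lemma hd_c2 (p : E5) : HasFDerivAt c2
    ((-(f p.2.1 * yy p * B2 p) - 2 * (f p.2.1 * yy p) ^ 2 * B2 p) • dt +
     (f1 p.2.1 * yy p * B2 p + f p.2.1 * yy p * (2 * ps1 p.2.1 - 2 * (f1 p.2.1 * (1 - yy p))) * B2 p) • dr) p := by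
  have h := ((hd_f p).fun_mul (hd_y p)).fun_mul (hd_B2 p)
  refine h.congr_fderiv ?_
  ext u <;> simp <;> ring

lemma hd_c3 (p : E5) : HasFDerivAt c3 ((f p.2.1 * yy p) • dt - (f1 p.2.1 * yy p) • dr) p := by
  have h := ((hd_f p).fun_mul (hd_y p)).fun_neg
  refine h.congr_fderiv ?_
  ext u <;> simp <;> ring

lemma hd_c4 (p : E5) : HasFDerivAt c4
    (-(f1 p.2.1 * yy p) • dt - (f2 p.2.1 * (1 - yy p)) • dr) p := by
  have h := ((hd_f1 p).fun_mul ((hd_y p).const_sub 1)).fun_neg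
  refine h.congr_fderiv ?_
  ext u <;> simp <;> ring

lemma hd_c6 (p : E5) : HasFDerivAt c6
    (-(f1 p.2.1 * yy p) • dt + (ps2 p.2.1 - f2 p.2.1 * (1 - yy p)) • dr) p := by
  have h := (hd_ps1 p).fun_sub ((hd_f1 p).fun_mul ((hd_y p).const_sub 1))
  refine h.congr_fderiv ?_
  ext u <;> simp <;> ring

lemma hd_c5 (p : E5) : HasFDerivAt c5
    ((f1 p.2.1 * yy p * W2 p) • dt -
      ((ps2 p.2.1 - f2 p.2.1 * (1 - yy p)) * W2 p + c6 p * (2 * ps1 p.2.1 * W2 p)) • dr) p := by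
  have h := ((hd_c6 p).fun_mul (hd_W2 p)).fun_neg
  refine h.congr_fderiv ?_
  ext u <;> simp <;> ring

/-- the metric `dt² + A² (dr² + e^{2ψ} |dx|²)` on `N = ℝ⁵` -/
noncomputable def formN (p : E5) : LinearMap.BilinForm ℝ E5 :=
  LinearMap.mk₂ ℝ (fun u v => u.1 * v.1 + A2 p * (u.2.1 * v.2.1) + B2 p * inner ℝ u.2.2 v.2.2)
    (by intro u u' v; simp [inner_add_left]; ring)
    (by intro c u v; simp [inner_smul_left]; ring)
    (by intro u u' v; simp [inner_add_right]; ring)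
    (by intro c u v; simp [inner_smul_right]; ring)

lemma formN_apply (p u v : E5) : formN p u v =
    u.1 * v.1 + A2 p * (u.2.1 * v.2.1) + B2 p * inner ℝ u.2.2 v.2.2 := rfl

/-- the Levi-Civita connection of `N` -/
noncomputable def GN (p : E5) : E5 →ₗ[ℝ] E5 →ₗ[ℝ] E5 :=
  LinearMap.mk₂ ℝ (fun u v =>
    (c1 p * (u.2.1 * v.2.1) + c2 p * inner ℝ u.2.2 v.2.2,
     c3 p * (u.1 * v.2.1 + v.1 * u.2.1) + c4 p * (u.2.1 * v.2.1) + c5 p * inner ℝ u.2.2 v.2.2,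
     c3 p • (u.1 • v.2.2 + v.1 • u.2.2) + c6 p • (u.2.1 • v.2.2 + v.2.1 • u.2.2)))
    (by
      intro u u' v
      refine Prod.ext ?_ (Prod.ext ?_ ?_)
      · simp [inner_add_left]; ring
      · simp [inner_add_left]; ring
      · simp; module)
    (by
      intro c u v
      refine Prod.ext ?_ (Prod.ext ?_ ?_)
      · simp [inner_smul_left]; ring
      · simp [inner_smul_left]; ring
      · simp; module)
    (by
      intro u u' v
      refine Prod.ext ?_ (Prod.ext ?_ ?_)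
      · simp [inner_add_right]; ring
      · simp [inner_add_right]; ring
      · simp; module)
    (by
      intro c u v
      refine Prod.ext ?_ (Prod.ext ?_ ?_)
      · simp [inner_smul_right]; ring
      · simp [inner_smul_right]; ring
      · simp; module)

lemma GN_apply (p u v : E5) : GN p u v =
    (c1 p * (u.2.1 * v.2.1) + c2 p * inner ℝ u.2.2 v.2.2,
     c3 p * (u.1 * v.2.1 + v.1 * u.2.1) + c4 p * (u.2.1 * v.2.1) + c5 p * inner ℝ u.2.2 v.2.2,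
     c3 p • (u.1 • v.2.2 + v.1 • u.2.2) + c6 p • (u.2.1 • v.2.2 + v.2.1 • u.2.2)) := rfl

lemma fderiv_formN (p u v w : E5) : fderiv ℝ (fun x => formN x v w) p u =
    (-2 * (f p.2.1 * yy p) * A2 p * u.1 + (-2 * (f1 p.2.1 * (1 - yy p)) * A2 p) * u.2.1) * (v.2.1 * w.2.1)
    + (-2 * (f p.2.1 * yy p) * B2 p * u.1 +
      ((2 * ps1 p.2.1 - 2 * (f1 p.2.1 * (1 - yy p))) * B2 p) * u.2.1) * inner ℝ v.2.2 w.2.2 := by
  have h : HasFDerivAt (fun x => formN x v w) _ p :=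
    (((hd_A2 p).mul_const (v.2.1 * w.2.1)).const_add (v.1 * w.1)).fun_add
      ((hd_B2 p).mul_const (inner ℝ v.2.2 w.2.2))
  rw [h.fderiv]
  simp
  ring

lemma levi_N (p u v w : E5) : 2 * formN p (GN p u v) w =
    fderiv ℝ (fun x => formN x v w) p u + fderiv ℝ (fun x => formN x u w) p v
      - fderiv ℝ (fun x => formN x u v) p w := by
  rw [fderiv_formN, fderiv_formN, fderiv_formN, formN_apply, GN_apply]
  simp only [inner_add_left, inner_smul_left, c1, c2, c3, c4, c5, c6, B2, conj_trivial]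
  rw [real_inner_comm w.2.2 v.2.2, real_inner_comm w.2.2 u.2.2]
  ring

/-- the derivative of the connection -/
lemma fderiv_GN (p u v w : E5) : fderiv ℝ (fun x => GN x v w) p u =
    (((-(f p.2.1 * yy p * A2 p) - 2 * (f p.2.1 * yy p) ^ 2 * A2 p) * u.1 +
      (f1 p.2.1 * yy p * A2 p - 2 * f p.2.1 * yy p * (f1 p.2.1 * (1 - yy p)) * A2 p) * u.2.1) * (v.2.1 * w.2.1)
      + ((-(f p.2.1 * yy p * B2 p) - 2 * (f p.2.1 * yy p) ^ 2 * B2 p) * u.1 +
      (f1 p.2.1 * yy p * B2 p + f p.2.1 * yy p * (2 * ps1 p.2.1 - 2 * (f1 p.2.1 * (1 - yy p))) * B2 p) * u.2.1)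
        * inner ℝ v.2.2 w.2.2,
     ((f p.2.1 * yy p) * u.1 - (f1 p.2.1 * yy p) * u.2.1) * (v.1 * w.2.1 + w.1 * v.2.1)
      + (-(f1 p.2.1 * yy p) * u.1 - (f2 p.2.1 * (1 - yy p)) * u.2.1) * (v.2.1 * w.2.1)
      + ((f1 p.2.1 * yy p * W2 p) * u.1 -
      ((ps2 p.2.1 - f2 p.2.1 * (1 - yy p)) * W2 p + c6 p * (2 * ps1 p.2.1 * W2 p)) * u.2.1) * inner ℝ v.2.2 w.2.2,
     ((f p.2.1 * yy p) * u.1 - (f1 p.2.1 * yy p) * u.2.1) • (v.1 • w.2.2 + w.1 • v.2.2)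
      + (-(f1 p.2.1 * yy p) * u.1 + (ps2 p.2.1 - f2 p.2.1 * (1 - yy p)) * u.2.1) • (v.2.1 • w.2.2 + w.2.1 • v.2.2)) := by
  have h : HasFDerivAt (fun x => GN x v w) _ p :=
    (((hd_c1 p).mul_const (v.2.1 * w.2.1)).fun_add ((hd_c2 p).mul_const (inner ℝ v.2.2 w.2.2))).prodMk
    (((((hd_c3 p).mul_const (v.1 * w.2.1 + w.1 * v.2.1)).fun_add ((hd_c4 p).mul_const (v.2.1 * w.2.1))).fun_add
      ((hd_c5 p).mul_const (inner ℝ v.2.2 w.2.2))).prodMk
     (((hd_c3 p).smul_const (v.1 • w.2.2 + w.1 • v.2.2)).fun_add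
      ((hd_c6 p).smul_const (v.2.1 • w.2.2 + w.2.1 • v.2.2))))
  rw [h.fderiv]
  refine Prod.ext ?_ (Prod.ext ?_ ?_)
  · simp; ring
  · simp; ring
  · simp

end Pool.Agent.H110R3.Bih
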