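import Pool.Agent.H110R3.Bih2

set_option autoImplicit false

open scoped ContDiff

namespace Pool.Agent.H110R3.Bih

noncomputable def PP (p : E5) : ℝ := (f p.2.1 * yy p) ^ 2 + f p.2.1 * yy p
noncomputable def QQ (p : E5) : ℝ := -(f1 p.2.1 * yy p)
noncomputable def SS (p : E5) : ℝ := ps2 p.2.1 + ps1 p.2.1 ^ 2
  - (1 - yy p) * (f2 p.2.1 + f1 p.2.1 * ps1 p.2.1) + (f p.2.1 * yy p) ^ 2 * A2 p

lemma curv_form (p u v : E5) : formN p (curv GN p u v v) u =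
    - PP p * A2 p * (u.1 * v.2.1 - v.1 * u.2.1) ^ 2
    - B2 p * ((PP p * u.1 ^ 2 + 2 * QQ p * (u.1 * u.2.1) + SS p * u.2.1 ^ 2) * inner ℝ v.2.2 v.2.2
      - 2 * (PP p * (u.1 * v.1) + QQ p * (u.1 * v.2.1 + v.1 * u.2.1) + SS p * (u.2.1 * v.2.1)) * inner ℝ u.2.2 v.2.2
      + (PP p * v.1 ^ 2 + 2 * QQ p * (v.1 * v.2.1) + SS p * v.2.1 ^ 2) * inner ℝ u.2.2 u.2.2)
    - ((f p.2.1 * yy p) ^ 2 * B2 p ^ 2 + c6 p ^ 2 * B2 p * W2 p) *
      (inner ℝ u.2.2 u.2.2 * inner ℝ v.2.2 v.2.2 - inner ℝ u.2.2 v.2.2 ^ 2) := by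
  unfold curv
  rw [fderiv_GN, fderiv_GN, formN_apply, GN_apply, GN_apply, GN_apply, GN_apply]
  simp only [Prod.fst_add, Prod.fst_sub, Prod.snd_add, Prod.snd_sub, inner_add_left, inner_sub_left,
    inner_smul_left, inner_add_right, inner_smul_right, conj_trivial,
    c1, c2, c3, c4, c5, c6, B2, PP, QQ, SS]
  rw [real_inner_comm u.2.2 v.2.2]
  ring

lemma yy_pos (p : E5) : 0 < yy p := Real.exp_pos _
lemma A2_pos (p : E5) : 0 < A2 p := Real.exp_pos _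
lemma W2_pos (p : E5) : 0 < W2 p := Real.exp_pos _
lemma B2_pos (p : E5) : 0 < B2 p := mul_pos (W2_pos p) (A2_pos p)

lemma PP_pos (p : E5) : 0 < PP p := by
  have h1 := yy_pos p
  have h2 := f_pos p.2.1
  have h3 : 0 < f p.2.1 := by linarith
  unfold PP
  positivity

lemma PS (p : E5) : QQ p ^ 2 ≤ PP p * SS p := by
  have h1 := yy_pos p
  have h2 := f_pos p.2.1
  have h3 : 0 < f p.2.1 := by linarith
  have h4 := convex_ineq p.2.1
  have h5 := aux_nonneg p.2.1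
  have hA := A2_pos p
  set S0 := ps2 p.2.1 + ps1 p.2.1 ^ 2 - (f2 p.2.1 + f1 p.2.1 * ps1 p.2.1) with hS0
  have hS : S0 ≤ SS p := by
    rw [hS0]
    unfold SS
    have : 0 ≤ yy p * (f2 p.2.1 + f1 p.2.1 * ps1 p.2.1) := mul_nonneg h1.le h5
    have h6 : 0 ≤ (f p.2.1 * yy p) ^ 2 * A2 p := by positivity
    linarith
  have hS0nn : 0 ≤ S0 := by
    have h6 : 0 ≤ f p.2.1 ^ 2 * S0 := le_trans (sq_nonneg _) h4
    by_contra hneg
    push Not at hneg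
    have : f p.2.1 ^ 2 * S0 < 0 := mul_neg_of_pos_of_neg (by positivity) hneg
    linarith
  calc QQ p ^ 2 = f1 p.2.1 ^ 2 * yy p ^ 2 := by unfold QQ; ring
    _ ≤ (f p.2.1 ^ 2 * S0) * yy p ^ 2 := mul_le_mul_of_nonneg_right h4 (sq_nonneg _)
    _ = (f p.2.1 * yy p) ^ 2 * S0 := by ring
    _ ≤ PP p * S0 := by
        apply mul_le_mul_of_nonneg_right _ hS0nn
        unfold PP
        have : 0 < f p.2.1 * yy p := by positivity
        linarith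
    _ ≤ PP p * SS p := mul_le_mul_of_nonneg_left hS (PP_pos p).le

lemma quad_nonneg (p : E5) (x y : ℝ) : 0 ≤ PP p * x ^ 2 + 2 * QQ p * (x * y) + SS p * y ^ 2 := by
  have h1 := PP_pos p
  have h2 := PS p
  have h3 : 0 ≤ PP p * (PP p * x ^ 2 + 2 * QQ p * (x * y) + SS p * y ^ 2) := by
    have : PP p * (PP p * x ^ 2 + 2 * QQ p * (x * y) + SS p * y ^ 2) =
      (PP p * x + QQ p * y) ^ 2 + (PP p * SS p - QQ p ^ 2) * y ^ 2 := by ring
    rw [this]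
    have : 0 ≤ (PP p * SS p - QQ p ^ 2) * y ^ 2 := mul_nonneg (by linarith) (sq_nonneg _)
    positivity
  exact nonneg_of_mul_nonneg_right h3 h1

lemma curv_nonpos (p u v : E5) : formN p (curv GN p u v v) u ≤ 0 := by
  rw [curv_form]
  have hA := A2_pos p
  have hB := B2_pos p
  have hW := W2_pos p
  have hP := PP_pos p
  have h1 : 0 ≤ PP p * A2 p * (u.1 * v.2.1 - v.1 * u.2.1) ^ 2 := by positivity
  have h2 : 0 ≤ (PP p * u.1 ^ 2 + 2 * QQ p * (u.1 * u.2.1) + SS p * u.2.1 ^ 2) * inner ℝ v.2.2 v.2.2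
      - 2 * (PP p * (u.1 * v.1) + QQ p * (u.1 * v.2.1 + v.1 * u.2.1) + SS p * (u.2.1 * v.2.1)) * inner ℝ u.2.2 v.2.2
      + (PP p * v.1 ^ 2 + 2 * QQ p * (v.1 * v.2.1) + SS p * v.2.1 ^ 2) * inner ℝ u.2.2 u.2.2 := by
    have e : (PP p * u.1 ^ 2 + 2 * QQ p * (u.1 * u.2.1) + SS p * u.2.1 ^ 2) * inner ℝ v.2.2 v.2.2
      - 2 * (PP p * (u.1 * v.1) + QQ p * (u.1 * v.2.1 + v.1 * u.2.1) + SS p * (u.2.1 * v.2.1)) * inner ℝ u.2.2 v.2.2
      + (PP p * v.1 ^ 2 + 2 * QQ p * (v.1 * v.2.1) + SS p * v.2.1 ^ 2) * inner ℝ u.2.2 u.2.2 =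
      ∑ k : Fin 3, (PP p * (u.1 * v.2.2 k - v.1 * u.2.2 k) ^ 2
        + 2 * QQ p * ((u.1 * v.2.2 k - v.1 * u.2.2 k) * (u.2.1 * v.2.2 k - v.2.1 * u.2.2 k))
        + SS p * (u.2.1 * v.2.2 k - v.2.1 * u.2.2 k) ^ 2) := by
      simp only [PiLp.inner_apply, RCLike.inner_apply, conj_trivial, Fin.sum_univ_three]
      ring
    rw [e]
    exact Finset.sum_nonneg fun k _ => quad_nonneg p _ _
  have h3 : 0 ≤ inner ℝ u.2.2 u.2.2 * inner ℝ v.2.2 v.2.2 - inner ℝ u.2.2 v.2.2 ^ 2 := by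
    have := real_inner_mul_inner_self_le u.2.2 v.2.2
    nlinarith
  have h4 : 0 ≤ ((f p.2.1 * yy p) ^ 2 * B2 p ^ 2 + c6 p ^ 2 * B2 p * W2 p) := by positivity
  have h5 := mul_nonneg hB.le h2
  have h6 := mul_nonneg h4 h3
  linarith

end Pool.Agent.H110R3.Bih
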