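import Pool.Agent.H110R3.Bih2

set_option autoImplicit false

open scoped ContDiff

namespace Pool.Agent.H110R3.Bih

noncomputable def ww (q : E4) : ℝ := Real.exp (2 * ps q.1)

lemma ww_pos (q : E4) : 0 < ww q := Real.exp_pos _

/-- the metric `dr² + e^{2ψ} |dx|²` on `M = ℝ⁴` -/
noncomputable def formM (q : E4) : LinearMap.BilinForm ℝ E4 :=
  LinearMap.mk₂ ℝ (fun u v => u.1 * v.1 + ww q * inner ℝ u.2 v.2)
    (by intro u u' v; simp [inner_add_left]; ring)
    (by intro c u v; simp [inner_smul_left]; ring)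
    (by intro u u' v; simp [inner_add_right]; ring)
    (by intro c u v; simp [inner_smul_right]; ring)

lemma formM_apply (q u v : E4) : formM q u v = u.1 * v.1 + ww q * inner ℝ u.2 v.2 := rfl

noncomputable def GM (q : E4) : E4 →ₗ[ℝ] E4 →ₗ[ℝ] E4 :=
  LinearMap.mk₂ ℝ (fun u v =>
    (-(ps1 q.1 * ww q * inner ℝ u.2 v.2), ps1 q.1 • (u.1 • v.2 + v.1 • u.2)))
    (by
      intro u u' v
      refine Prod.ext ?_ ?_
      · simp [inner_add_left]; ring
      · simp; module)
    (by
      intro c u v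
      refine Prod.ext ?_ ?_
      · simp [inner_smul_left]; ring
      · simp; module)
    (by
      intro u u' v
      refine Prod.ext ?_ ?_
      · simp [inner_add_right]; ring
      · simp; module)
    (by
      intro c u v
      refine Prod.ext ?_ ?_
      · simp [inner_smul_right]; ring
      · simp; module)

lemma GM_apply (q u v : E4) : GM q u v =
    (-(ps1 q.1 * ww q * inner ℝ u.2 v.2), ps1 q.1 • (u.1 • v.2 + v.1 • u.2)) := rfl

noncomputable def dr4 : E4 →L[ℝ] ℝ := ContinuousLinearMap.fst ℝ ℝ V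
@[simp] lemma dr4_apply (u : E4) : dr4 u = u.1 := rfl

lemma hd4 (c : ℝ → ℝ) (c' : ℝ) (q : E4) (h : HasDerivAt c c' q.1) :
    HasFDerivAt (fun p : E4 => c p.1) (c' • dr4) q :=
  h.comp_hasFDerivAt q dr4.hasFDerivAt

lemma hd_ww (q : E4) : HasFDerivAt ww ((2 * ps1 q.1 * ww q) • dr4) q := by
  have h := ((hd4 _ _ q (hasDerivAt_ps q.1)).const_mul 2).exp
  refine h.congr_fderiv ?_
  ext u <;> simp [ww] <;> ring

lemma fderiv_formM (q u v w : E4) : fderiv ℝ (fun x => formM x v w) q u =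
    2 * ps1 q.1 * ww q * u.1 * inner ℝ v.2 w.2 := by
  have h : HasFDerivAt (fun x => formM x v w) _ q :=
    ((hd_ww q).mul_const (inner ℝ v.2 w.2)).const_add (v.1 * w.1)
  rw [h.fderiv]
  simp
  ring

lemma levi_M (q u v w : E4) : 2 * formM q (GM q u v) w =
    fderiv ℝ (fun x => formM x v w) q u + fderiv ℝ (fun x => formM x u w) q v
      - fderiv ℝ (fun x => formM x u v) q w := by
  rw [fderiv_formM, fderiv_formM, fderiv_formM, formM_apply, GM_apply]
  simp only [inner_add_left, inner_smul_left, conj_trivial]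
  ring

/-- the inclusion of the hypersurface -/
def phi (q : E4) : E5 := (0, q)

lemma hd_phi (q : E4) : HasFDerivAt phi (ContinuousLinearMap.inr ℝ ℝ E4) q :=
  (ContinuousLinearMap.inr ℝ ℝ E4).hasFDerivAt

lemma fderiv_phi (q u : E4) : fderiv ℝ phi q u = (0, u) := by
  rw [(hd_phi q).fderiv]; rfl

lemma yy_phi (q : E4) : yy (phi q) = 1 := by simp [yy, phi]
lemma A2_phi (q : E4) : A2 (phi q) = 1 := by simp [A2, yy_phi]
lemma W2_phi (q : E4) : W2 (phi q) = ww q := rfl
lemma B2_phi (q : E4) : B2 (phi q) = ww q := by simp [B2, W2_phi, A2_phi]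
lemma phi_r (q : E4) : (phi q).2.1 = q.1 := rfl
lemma c1_phi (q : E4) : c1 (phi q) = f q.1 := by simp [c1, yy_phi, A2_phi, phi_r]
lemma c2_phi (q : E4) : c2 (phi q) = f q.1 * ww q := by simp [c2, yy_phi, B2_phi, phi_r]
lemma c3_phi (q : E4) : c3 (phi q) = -f q.1 := by simp [c3, yy_phi, phi_r]
lemma c4_phi (q : E4) : c4 (phi q) = 0 := by simp [c4, yy_phi]
lemma c6_phi (q : E4) : c6 (phi q) = ps1 q.1 := by simp [c6, yy_phi, phi_r]
lemma c5_phi (q : E4) : c5 (phi q) = -(ps1 q.1 * ww q) := by simp [c5, c6_phi, W2_phi]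

lemma hess_eq (q u v : E4) : hessMap GM GN phi q u v = (f q.1 * formM q u v, 0, 0) := by
  unfold hessMap covD
  have h : (fun x => fderiv ℝ phi x v) = fun _ => ((0 : ℝ), v) := by
    funext x; exact fderiv_phi x v
  rw [h, fderiv_phi, fderiv_phi]
  simp only [fderiv_fun_const, Pi.zero_apply, ContinuousLinearMap.zero_apply, zero_add]
  rw [GN_apply, GM_apply, c1_phi, c2_phi, c3_phi, c4_phi, c5_phi, c6_phi, formM_apply]
  refine Prod.ext ?_ (Prod.ext ?_ ?_)
  · simp; ring
  · simp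
  · simp

lemma tension_eq (e : E4 → Fin 4 → E4) (he : ∀ q i j, formM q (e q i) (e q j) = if i = j then 1 else 0) :
    tension GM GN phi e = fun q => (4 * f q.1, 0, 0) := by
  funext q
  unfold tension
  simp only [hess_eq, he, if_true, mul_one]
  rw [Finset.sum_const]
  simp

/-- sums over an orthonormal frame -/
lemma frame_sums (q : E4) (e : Fin 4 → E4) (he : ∀ i j, formM q (e i) (e j) = if i = j then 1 else 0) :
    ∑ i, (e i).1 ^ 2 = 1 ∧ ∑ i, ww q * inner ℝ (e i).2 (e i).2 = 3 ∧ ∑ i, (e i).1 • (e i).2 = 0 := by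
  set s := Real.exp (ps q.1) with hs
  have hs2 : s * s = ww q := by rw [hs, ww, ← Real.exp_add]; congr 1; ring
  have hs0 : s ≠ 0 := (Real.exp_pos _).ne'
  let M : Matrix (Fin 4) (Fin 4) ℝ := Matrix.of fun i j => Fin.cases (e i).1 (fun k => s * (e i).2 k) j
  have hM : M * M.transpose = 1 := by
    ext i j
    rw [Matrix.mul_apply, Fin.sum_univ_succ]
    simp only [M, Matrix.transpose_apply, Matrix.of_apply, Fin.cases_zero, Fin.cases_succ]
    have h := he i j
    rw [formM_apply, PiLp.inner_apply] at h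
    simp only [RCLike.inner_apply, conj_trivial] at h
    rw [Matrix.one_apply, ← h, Finset.mul_sum]
    congr 1
    refine Finset.sum_congr rfl fun k _ => ?_
    rw [← hs2]; ring
  have hM' : M.transpose * M = 1 := mul_eq_one_comm.mp hM
  have h00 := congrFun (congrFun hM' 0) 0
  rw [Matrix.mul_apply] at h00
  simp only [M, Matrix.transpose_apply, Matrix.of_apply, Fin.cases_zero, Matrix.one_apply_eq] at h00
  have h1 : ∑ i, (e i).1 ^ 2 = 1 := by
    rw [← h00]; exact Finset.sum_congr rfl fun i _ => by ring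
  refine ⟨h1, ?_, ?_⟩
  · have h2 : ∑ i, formM q (e i) (e i) = 4 := by
      simp only [he, if_true, Finset.sum_const]
      simp
    simp only [formM_apply, Finset.sum_add_distrib] at h2
    have h3 : ∑ i, (e i).1 * (e i).1 = 1 := by
      rw [← h1]; exact Finset.sum_congr rfl fun i _ => by ring
    linarith
  · ext k
    have hk := congrFun (congrFun hM' 0) k.succ
    rw [Matrix.mul_apply] at hk
    simp only [M, Matrix.transpose_apply, Matrix.of_apply, Fin.cases_zero, Fin.cases_succ] at hk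
    rw [Matrix.one_apply_ne (Fin.succ_ne_zero k).symm] at hk
    have h4 : s * ∑ i, (e i).1 * (e i).2 k = 0 := by
      rw [← hk, Finset.mul_sum]; exact Finset.sum_congr rfl fun i _ => by ring
    have h5 := (mul_eq_zero.mp h4).resolve_left hs0
    simpa using h5

lemma hd_tau (q : E4) : HasFDerivAt (fun q : E4 => ((4 * f q.1, 0, 0) : E5))
    (((4 * f1 q.1) • dr4).prod 0) q := by
  have h := ((hd4 _ _ q (hasDerivAt_f q.1)).const_mul 4).prodMk (hasFDerivAt_const (0 : ℝ × V) q)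
  refine h.congr_fderiv ?_
  ext u <;> simp <;> ring

lemma covD_tau (q v : E4) : covD GN phi (fun q : E4 => ((4 * f q.1, 0, 0) : E5)) q v =
    (4 * f1 q.1 * v.1, -(4 * f q.1 ^ 2 * v.1), -(4 * f q.1 ^ 2) • v.2) := by
  unfold covD
  rw [(hd_tau q).fderiv, fderiv_phi, GN_apply, c1_phi, c2_phi, c3_phi, c4_phi, c5_phi, c6_phi]
  refine Prod.ext ?_ (Prod.ext ?_ ?_)
  · simp
  · simp; ring
  · simp
    module

lemma hd_cov (q v : E4) : HasFDerivAt (fun q : E4 => ((4 * f1 q.1 * v.1, -(4 * f q.1 ^ 2 * v.1), -(4 * f q.1 ^ 2) • v.2) : E5))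
    (((4 * f2 q.1 * v.1) • dr4).prod (((-(8 * f q.1 * f1 q.1 * v.1)) • dr4).prod
      ((-(8 * f q.1 * f1 q.1) • dr4).smulRight v.2))) q := by
  have hf := hd4 _ _ q (hasDerivAt_f q.1)
  have hf1 := hd4 _ _ q (hasDerivAt_f1 q.1)
  have hsq := (hf.fun_mul hf).const_mul 4
  have h := ((hf1.const_mul 4).mul_const v.1).prodMk ((((hsq.mul_const v.1).fun_neg)).prodMk ((hsq.fun_neg).smul_const v.2))
  refine (h.congr_fderiv ?_).congr_of_eventuallyEq ?_
  · ext u <;> simp <;> ring
  · refine Filter.Eventually.of_forall fun x => ?_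
    simp only [pow_two]

lemma covD2_tau (q u v : E4) : covD2 GM GN phi (fun q : E4 => ((4 * f q.1, 0, 0) : E5)) q u v =
    (4 * f2 q.1 * (u.1 * v.1) - 4 * f q.1 ^ 3 * (u.1 * v.1 + ww q * inner ℝ u.2 v.2)
       + 4 * f1 q.1 * ps1 q.1 * (ww q * inner ℝ u.2 v.2),
     -(12 * f q.1 * f1 q.1 * (u.1 * v.1)),
     -(8 * f q.1 * f1 q.1 * u.1) • v.2 - (4 * f q.1 * f1 q.1 * v.1) • u.2) := by
  unfold covD2
  have h : (fun x => covD GN phi (fun q : E4 => ((4 * f q.1, 0, 0) : E5)) x v) =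
      fun q : E4 => ((4 * f1 q.1 * v.1, -(4 * f q.1 ^ 2 * v.1), -(4 * f q.1 ^ 2) • v.2) : E5) := by
    funext x; exact covD_tau x v
  rw [h, covD_tau]
  unfold covD
  rw [(hd_cov q v).fderiv, fderiv_phi, GN_apply, GM_apply, c1_phi, c2_phi, c3_phi, c4_phi, c5_phi, c6_phi]
  refine Prod.ext ?_ (Prod.ext ?_ ?_)
  · simp [inner_smul_right]; ring
  · simp [inner_smul_right]; ring
  · simp
    module

lemma curv_tau (q e : E4) (k : ℝ) : curv GN (phi q) (0, e) (k, 0, 0) (0, e) =
    (k * ((f q.1 ^ 2 + f q.1) * (e.1 ^ 2 + ww q * inner ℝ e.2 e.2)),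
     -(k * f1 q.1 * (ww q * inner ℝ e.2 e.2)), (k * f1 q.1 * e.1) • e.2) := by
  unfold curv
  rw [fderiv_GN, fderiv_GN, GN_apply, GN_apply, GN_apply, GN_apply, c1_phi, c2_phi, c3_phi, c4_phi,
    c5_phi, c6_phi, A2_phi, B2_phi, W2_phi, yy_phi, phi_r]
  refine Prod.ext ?_ (Prod.ext ?_ ?_)
  · simp [inner_smul_right]; ring
  · simp [inner_smul_right]; ring
  · simp
    module

theorem bitension_zero (e : E4 → Fin 4 → E4)
    (he : ∀ q i j, formM q (e q i) (e q j) = if i = j then 1 else 0) (q : E4) :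
    bitension GM GN phi e q = 0 := by
  unfold bitension
  rw [tension_eq e he]
  simp only [covD2_tau, fderiv_phi, curv_tau]
  obtain ⟨h1, h2, h3⟩ := frame_sums q (e q) (he q)
  have hode := ode q.1
  rw [← Finset.sum_sub_distrib]
  have h1' : ∑ i, (e q i).1 * (e q i).1 = 1 := by
    rw [← h1]; exact Finset.sum_congr rfl fun i _ => by ring
  refine Prod.ext ?_ (Prod.ext ?_ ?_)
  · rw [Prod.fst_sum]
    simp only [Prod.fst_sub, Finset.sum_sub_distrib, Finset.sum_add_distrib, ← Finset.mul_sum, mul_add,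
      h1, h2, h1', Prod.fst_zero, pow_two]
    linear_combination 4 * hode
  · rw [Prod.snd_sum, Prod.fst_sum]
    simp only [Prod.snd_sub, Prod.fst_sub, Finset.sum_sub_distrib, Finset.sum_neg_distrib, ← Finset.mul_sum,
      h1, h2, h1', Prod.fst_zero, Prod.snd_zero]
    ring
  · rw [Prod.snd_sum, Prod.snd_sum]
    simp only [Prod.snd_sub]
    have : ∀ i, (-(8 * f q.1 * f1 q.1 * (e q i).1) • (e q i).2 - (4 * f q.1 * f1 q.1 * (e q i).1) • (e q i).2
        - (4 * f q.1 * f1 q.1 * (e q i).1) • (e q i).2) = (-16 * f q.1 * f1 q.1) • ((e q i).1 • (e q i).2) := by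
      intro i; module
    rw [Finset.sum_congr rfl fun i _ => this i, ← Finset.smul_sum, h3, smul_zero]
    rfl

end Pool.Agent.H110R3.Bih
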