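import Pool.Agent.H110R3.Bih3
import Pool.Agent.H110R3.Bih4

set_option autoImplicit false

open scoped ContDiff
open MeasureTheory

namespace Pool.Agent.H110R3.Bih

section
variable {E : Type*} [NormedAddCommGroup E] [NormedSpace ℝ E] [CompleteSpace E]

lemma rdist_lower (h : RMetric E) (c : ℝ) (hc : 0 < c)
    (hlow : ∀ p v, c * ‖v‖ ≤ Real.sqrt (h.form p v v)) (p q : E) :
    ENNReal.ofReal (c * ‖q - p‖) ≤ h.rdist p q := by
  unfold RMetric.rdist
  refine le_iInf fun γ => le_iInf fun hγ => le_iInf fun h0 => le_iInf fun h1 => ?_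
  have hint : ∫ t in (0 : ℝ)..1, deriv γ t = q - p := by
    rw [intervalIntegral.integral_deriv_eq_sub (fun x _ => (hγ.differentiable (by norm_num)).differentiableAt)
      ((hγ.continuous_deriv (by norm_num)).intervalIntegrable _ _), h0, h1]
  have e1 : ‖q - p‖ₑ ≤ ∫⁻ t in Set.Icc (0 : ℝ) 1, ‖deriv γ t‖ₑ := by
    rw [← hint, intervalIntegral.integral_of_le zero_le_one, ← integral_Icc_eq_integral_Ioc]
    exact enorm_integral_le_lintegral_enorm _
  calc ENNReal.ofReal (c * ‖q - p‖) = ENNReal.ofReal c * ‖q - p‖ₑ := by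
        rw [ENNReal.ofReal_mul hc.le, ofReal_norm]
    _ ≤ ENNReal.ofReal c * ∫⁻ t in Set.Icc (0 : ℝ) 1, ‖deriv γ t‖ₑ := by gcongr
    _ = ∫⁻ t in Set.Icc (0 : ℝ) 1, ENNReal.ofReal c * ‖deriv γ t‖ₑ := by
        rw [lintegral_const_mul' _ _ ENNReal.ofReal_ne_top]
    _ ≤ h.length γ := by
        unfold RMetric.length
        refine lintegral_mono fun t => ?_
        rw [← ofReal_norm, ← ENNReal.ofReal_mul hc.le]
        exact ENNReal.ofReal_le_ofReal (hlow _ _)

lemma rdist_upper (h : RMetric E) (p : E) (C δ : ℝ) (hC : 0 ≤ C)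
    (hup : ∀ x ∈ Metric.ball p δ, ∀ v, Real.sqrt (h.form x v v) ≤ C * ‖v‖) (q : E)
    (hq : q ∈ Metric.ball p δ) : h.rdist q p ≤ ENNReal.ofReal (C * ‖q - p‖) := by
  have hδ : 0 < δ := Metric.pos_of_mem_ball hq
  set γ : ℝ → E := fun t => q + t • (p - q) with hγ
  have hd : ∀ t, HasDerivAt γ (p - q) t := by
    intro t
    exact (((hasDerivAt_id t).smul_const (p - q)).const_add q).congr_deriv (by simp)
  have hcd : ContDiff ℝ 1 γ := by
    rw [hγ]; fun_prop
  have h1 : h.rdist q p ≤ h.length γ := by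
    unfold RMetric.rdist
    refine iInf_le_of_le γ (iInf_le_of_le hcd (iInf_le_of_le ?_ (iInf_le_of_le ?_ le_rfl)))
    · simp [hγ]
    · simp [hγ]
  refine h1.trans ?_
  unfold RMetric.length
  calc ∫⁻ t in Set.Icc (0 : ℝ) 1, ENNReal.ofReal (Real.sqrt (h.form (γ t) (deriv γ t) (deriv γ t)))
      ≤ ∫⁻ t in Set.Icc (0 : ℝ) 1, ENNReal.ofReal (C * ‖q - p‖) := by
        refine setLIntegral_mono measurable_const fun t ht => ?_
        rw [(hd t).deriv]
        apply ENNReal.ofReal_le_ofReal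
        have hmem : γ t ∈ Metric.ball p δ := by
          have hconv := (convex_ball p δ) hq (Metric.mem_ball_self hδ) (sub_nonneg.mpr ht.2) ht.1 (by ring)
          have : γ t = (1 - t) • q + t • p := by rw [hγ]; module
          rw [this]; exact hconv
        rw [norm_sub_rev q p]
        exact hup _ hmem _
    _ = ENNReal.ofReal (C * ‖q - p‖) := by simp

theorem complete_of_bounds (h : RMetric E) (c : ℝ) (hc : 0 < c)
    (hlow : ∀ p v, c * ‖v‖ ≤ Real.sqrt (h.form p v v))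
    (hup : ∀ p, ∃ C δ : ℝ, 0 ≤ C ∧ 0 < δ ∧ ∀ x ∈ Metric.ball p δ, ∀ v,
      Real.sqrt (h.form x v v) ≤ C * ‖v‖) : h.Complete := by
  intro s hs
  have hcau : CauchySeq s := by
    rw [Metric.cauchySeq_iff]
    intro ε hε
    obtain ⟨N, hN⟩ := hs (ENNReal.ofReal (c * ε)) (by simpa using mul_pos hc hε)
    refine ⟨N, fun m hm n hn => ?_⟩
    have h1 := lt_of_le_of_lt (rdist_lower h c hc hlow (s m) (s n)) (hN m hm n hn)
    rw [ENNReal.ofReal_lt_ofReal_iff (mul_pos hc hε)] at h1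
    rw [dist_comm, dist_eq_norm]
    exact lt_of_mul_lt_mul_left h1 hc.le
  obtain ⟨p, hp⟩ := cauchySeq_tendsto_of_complete hcau
  refine ⟨p, fun ε hε => ?_⟩
  obtain ⟨C, δ, hC, hδ, hup⟩ := hup p
  have ht : Filter.Tendsto (fun n => ENNReal.ofReal (C * ‖s n - p‖)) Filter.atTop (nhds 0) := by
    have h1 : Filter.Tendsto (fun n => ‖s n - p‖) Filter.atTop (nhds 0) := by
      exact tendsto_iff_norm_sub_tendsto_zero.mp hp
    have h2 := ENNReal.tendsto_ofReal (h1.const_mul C)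
    simpa using h2
  have e1 := (ht.eventually (gt_mem_nhds hε))
  have e2 := hp.eventually (Metric.ball_mem_nhds p hδ)
  obtain ⟨N, hN⟩ := Filter.eventually_atTop.mp (e1.and e2)
  refine ⟨N, fun n hn => ?_⟩
  exact lt_of_le_of_lt (rdist_upper h p C δ hC hup (s n) (hN n hn).2) (hN n hn).1

end

lemma cd_f : ContDiff ℝ ∞ f := by
  unfold f
  exact contDiff_const.sub (contDiff_const.div (by fun_prop) fun r => (one_add_pos r).ne')

lemma cd_ps : ContDiff ℝ ∞ ps := by
  unfold ps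
  have : ContDiff ℝ ∞ (fun r : ℝ => Real.log (1 + r ^ 2)) :=
    ContDiff.log (by fun_prop) fun r => (one_add_pos r).ne'
  fun_prop

lemma cd_yy : ContDiff ℝ ∞ yy := by unfold yy; fun_prop

lemma cd_A2 : ContDiff ℝ ∞ A2 := by
  unfold A2
  have h1 : ContDiff ℝ ∞ fun p : E5 => f p.2.1 := cd_f.comp (by fun_prop)
  have h2 := cd_yy
  fun_prop

lemma cd_W2 : ContDiff ℝ ∞ W2 := by
  unfold W2
  have h1 : ContDiff ℝ ∞ fun p : E5 => ps p.2.1 := cd_ps.comp (by fun_prop)
  fun_prop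

lemma cd_B2 : ContDiff ℝ ∞ B2 := by
  unfold B2
  exact cd_W2.mul cd_A2

lemma cd_ww : ContDiff ℝ ∞ ww := by
  unfold ww
  have h1 : ContDiff ℝ ∞ fun p : E4 => ps p.1 := cd_ps.comp (by fun_prop)
  fun_prop

/-- the metric of `N` -/
noncomputable def hN : RMetric E5 where
  form := formN
  smooth := by
    intro v w
    simp only [formN_apply]
    have h1 := cd_A2
    have h2 := cd_B2
    fun_prop
  symm := by
    intro p v w
    simp only [formN_apply]
    rw [real_inner_comm]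
    ring
  pos := by
    intro p v hv
    rw [formN_apply]
    have hA := A2_pos p
    have hB := B2_pos p
    rw [real_inner_self_eq_norm_sq]
    by_contra hcon
    push Not at hcon
    have h1 : 0 ≤ v.1 * v.1 := mul_self_nonneg _
    have h2 : 0 ≤ A2 p * (v.2.1 * v.2.1) := mul_nonneg hA.le (mul_self_nonneg _)
    have h3 : 0 ≤ B2 p * ‖v.2.2‖ ^ 2 := mul_nonneg hB.le (sq_nonneg _)
    have e1 : v.1 * v.1 = 0 := by linarith
    have e2 : A2 p * (v.2.1 * v.2.1) = 0 := by linarith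
    have e3 : B2 p * ‖v.2.2‖ ^ 2 = 0 := by linarith
    apply hv
    refine Prod.ext (mul_self_eq_zero.mp e1) (Prod.ext ?_ ?_)
    · exact mul_self_eq_zero.mp ((mul_eq_zero.mp e2).resolve_left hA.ne')
    · exact norm_eq_zero.mp (pow_eq_zero_iff (by norm_num) |>.mp ((mul_eq_zero.mp e3).resolve_left hB.ne'))

/-- the metric of `M` -/
noncomputable def gM : RMetric E4 where
  form := formM
  smooth := by
    intro v w
    simp only [formM_apply]
    have h1 := cd_ww
    fun_prop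
  symm := by
    intro p v w
    simp only [formM_apply]
    rw [real_inner_comm]
    ring
  pos := by
    intro p v hv
    rw [formM_apply]
    have hB := ww_pos p
    rw [real_inner_self_eq_norm_sq]
    by_contra hcon
    push Not at hcon
    have h1 : 0 ≤ v.1 * v.1 := mul_self_nonneg _
    have h3 : 0 ≤ ww p * ‖v.2‖ ^ 2 := mul_nonneg hB.le (sq_nonneg _)
    have e1 : v.1 * v.1 = 0 := by linarith
    have e3 : ww p * ‖v.2‖ ^ 2 = 0 := by linarith
    apply hv
    refine Prod.ext (mul_self_eq_zero.mp e1) ?_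
    exact norm_eq_zero.mp (pow_eq_zero_iff (by norm_num) |>.mp ((mul_eq_zero.mp e3).resolve_left hB.ne'))

lemma W2_ge (p : E5) : 1 ≤ W2 p := by
  unfold W2
  exact Real.one_le_exp (by have := ps_nonneg p.2.1; linarith)

lemma ww_ge (p : E4) : 1 ≤ ww p := by
  unfold ww
  exact Real.one_le_exp (by have := ps_nonneg p.1; linarith)

lemma A2_ge (p : E5) : Real.exp (-3) ≤ A2 p := by
  unfold A2
  apply Real.exp_le_exp.mpr
  have h1 := f_pos p.2.1
  have h2 := f_lt p.2.1
  have h3 := yy_pos p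
  nlinarith

lemma complete_N : hN.Complete := by
  apply complete_of_bounds hN (Real.sqrt (Real.exp (-3))) (Real.sqrt_pos.mpr (Real.exp_pos _))
  · intro p v
    have hA := A2_ge p
    have hW := W2_ge p
    have hB : Real.exp (-3) ≤ B2 p := by
      unfold B2
      have := Real.exp_pos (-3)
      nlinarith
    have he := Real.exp_pos (-3)
    have he1 : Real.exp (-3) ≤ 1 := Real.exp_le_one_iff.mpr (by norm_num)
    have hform : hN.form p v v = v.1 * v.1 + A2 p * (v.2.1 * v.2.1) + B2 p * ‖v.2.2‖ ^ 2 := by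
      rw [← real_inner_self_eq_norm_sq]; rfl
    rw [hform]
    apply Real.le_sqrt_of_sq_le
    rw [mul_pow, Real.sq_sqrt he.le]
    have n1 : 0 ≤ v.1 * v.1 := mul_self_nonneg _
    have n2 : 0 ≤ A2 p * (v.2.1 * v.2.1) := mul_nonneg (A2_pos p).le (mul_self_nonneg _)
    have n3 : 0 ≤ B2 p * ‖v.2.2‖ ^ 2 := mul_nonneg (B2_pos p).le (sq_nonneg _)
    have key : ‖v‖ ^ 2 = v.1 * v.1 ∨ ‖v‖ ^ 2 = v.2.1 * v.2.1 ∨ ‖v‖ ^ 2 = ‖v.2.2‖ ^ 2 := by
      rcases le_total ‖v.1‖ ‖v.2‖ with h | h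
      · have hv : ‖v‖ = ‖v.2‖ := by rw [Prod.norm_def]; exact max_eq_right h
        rcases le_total ‖v.2.1‖ ‖v.2.2‖ with h' | h'
        · right; right
          rw [hv, Prod.norm_def, max_eq_right h']
        · right; left
          rw [hv, Prod.norm_def, max_eq_left h', Real.norm_eq_abs, sq_abs, pow_two]
      · left
        rw [Prod.norm_def, max_eq_left h, Real.norm_eq_abs, sq_abs, pow_two]
    rcases key with k | k | k
    · rw [k]; nlinarith
    · rw [k]
      have := mul_le_mul_of_nonneg_right hA (mul_self_nonneg v.2.1)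
      linarith
    · rw [k]
      have := mul_le_mul_of_nonneg_right hB (sq_nonneg ‖v.2.2‖)
      linarith
  · intro p
    have hA : ∀ᶠ x in nhds p, A2 x < A2 p + 1 :=
      cd_A2.continuous.continuousAt.eventually (gt_mem_nhds (by linarith))
    have hB : ∀ᶠ x in nhds p, B2 x < B2 p + 1 :=
      cd_B2.continuous.continuousAt.eventually (gt_mem_nhds (by linarith))
    obtain ⟨δ, hδ, hball⟩ := Metric.eventually_nhds_iff_ball.mp (hA.and hB)
    refine ⟨Real.sqrt (1 + (A2 p + 1) + (B2 p + 1)), δ, Real.sqrt_nonneg _, hδ, fun x hx v => ?_⟩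
    obtain ⟨hxA, hxB⟩ := hball x hx
    have hform : hN.form x v v = v.1 * v.1 + A2 x * (v.2.1 * v.2.1) + B2 x * ‖v.2.2‖ ^ 2 := by
      rw [← real_inner_self_eq_norm_sq]; rfl
    rw [hform, ← Real.sqrt_sq (norm_nonneg v), ← Real.sqrt_mul (by
      have := A2_pos p; have := B2_pos p; positivity)]
    apply Real.sqrt_le_sqrt
    have n1 : v.1 * v.1 ≤ ‖v‖ ^ 2 := by
      have : ‖v.1‖ ≤ ‖v‖ := norm_fst_le v
      calc v.1 * v.1 = ‖v.1‖ ^ 2 := by rw [Real.norm_eq_abs, sq_abs, pow_two]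
        _ ≤ ‖v‖ ^ 2 := by gcongr
    have n2 : v.2.1 * v.2.1 ≤ ‖v‖ ^ 2 := by
      have : ‖v.2.1‖ ≤ ‖v‖ := (norm_fst_le v.2).trans (norm_snd_le v)
      calc v.2.1 * v.2.1 = ‖v.2.1‖ ^ 2 := by rw [Real.norm_eq_abs, sq_abs, pow_two]
        _ ≤ ‖v‖ ^ 2 := by gcongr
    have n3 : ‖v.2.2‖ ^ 2 ≤ ‖v‖ ^ 2 := by
      have : ‖v.2.2‖ ≤ ‖v‖ := (norm_snd_le v.2).trans (norm_snd_le v)
      gcongr
    have m2 : A2 x * (v.2.1 * v.2.1) ≤ (A2 p + 1) * ‖v‖ ^ 2 :=
      mul_le_mul hxA.le n2 (mul_self_nonneg _) (by have := A2_pos p; linarith)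
    have m3 : B2 x * ‖v.2.2‖ ^ 2 ≤ (B2 p + 1) * ‖v‖ ^ 2 :=
      mul_le_mul hxB.le n3 (sq_nonneg _) (by have := B2_pos p; linarith)
    linarith

lemma complete_M : gM.Complete := by
  apply complete_of_bounds gM 1 one_pos
  · intro p v
    have hW := ww_ge p
    have hform : gM.form p v v = v.1 * v.1 + ww p * ‖v.2‖ ^ 2 := by
      rw [← real_inner_self_eq_norm_sq]; rfl
    rw [hform]
    apply Real.le_sqrt_of_sq_le
    rw [one_mul]
    have n1 : 0 ≤ v.1 * v.1 := mul_self_nonneg _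
    have n3 : 0 ≤ ‖v.2‖ ^ 2 := sq_nonneg _
    have key : ‖v‖ ^ 2 = v.1 * v.1 ∨ ‖v‖ ^ 2 = ‖v.2‖ ^ 2 := by
      rcases le_total ‖v.1‖ ‖v.2‖ with h | h
      · right; rw [Prod.norm_def, max_eq_right h]
      · left
        rw [Prod.norm_def, max_eq_left h, Real.norm_eq_abs, sq_abs, pow_two]
    rcases key with k | k
    · rw [k]; nlinarith
    · rw [k]; nlinarith
  · intro p
    have hB : ∀ᶠ x in nhds p, ww x < ww p + 1 :=
      cd_ww.continuous.continuousAt.eventually (gt_mem_nhds (by linarith))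
    obtain ⟨δ, hδ, hball⟩ := Metric.eventually_nhds_iff_ball.mp hB
    refine ⟨Real.sqrt (1 + (ww p + 1)), δ, Real.sqrt_nonneg _, hδ, fun x hx v => ?_⟩
    have hxB := hball x hx
    have hform : gM.form x v v = v.1 * v.1 + ww x * ‖v.2‖ ^ 2 := by
      rw [← real_inner_self_eq_norm_sq]; rfl
    rw [hform, ← Real.sqrt_sq (norm_nonneg v), ← Real.sqrt_mul (by
      have := ww_pos p; positivity)]
    apply Real.sqrt_le_sqrt
    have n1 : v.1 * v.1 ≤ ‖v‖ ^ 2 := by
      have : ‖v.1‖ ≤ ‖v‖ := norm_fst_le v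
      calc v.1 * v.1 = ‖v.1‖ ^ 2 := by rw [Real.norm_eq_abs, sq_abs, pow_two]
        _ ≤ ‖v‖ ^ 2 := by gcongr
    have n3 : ‖v.2‖ ^ 2 ≤ ‖v‖ ^ 2 := by
      have : ‖v.2‖ ≤ ‖v‖ := norm_snd_le v
      gcongr
    have m3 : ww x * ‖v.2‖ ^ 2 ≤ (ww p + 1) * ‖v‖ ^ 2 :=
      mul_le_mul hxB.le n3 (sq_nonneg _) (by have := ww_pos p; linarith)
    linarith

/-- the standard orthonormal frame of `M` -/
noncomputable def fr (q : E4) (i : Fin 4) : E4 :=
  Fin.cases ((1 : ℝ), (0 : V)) (fun k => ((0 : ℝ), (Real.exp (-ps q.1)) • (EuclideanSpace.single k (1 : ℝ) : V))) i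

lemma fr_frame (q : E4) (i j : Fin 4) : formM q (fr q i) (fr q j) = if i = j then 1 else 0 := by
  have hw : ww q * (Real.exp (-ps q.1) * Real.exp (-ps q.1)) = 1 := by
    unfold ww
    rw [← Real.exp_add, ← Real.exp_add, ← Real.exp_zero]
    congr 1; ring
  rw [formM_apply]
  unfold fr
  refine Fin.cases ?_ (fun k => ?_) i <;> refine Fin.cases ?_ (fun l => ?_) j
  · simp
  · simp [(Fin.succ_ne_zero l).symm]
  · simp [Fin.succ_ne_zero k]
  · simp only [Fin.cases_succ, mul_zero, zero_add, inner_smul_left, inner_smul_right, conj_trivial]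
    rw [EuclideanSpace.inner_single_left]
    simp only [map_one, one_mul, PiLp.single_apply, Fin.succ_inj]
    split_ifs with h
    · rw [mul_one]; exact hw
    · ring

/-- the counterexample -/
theorem counterexample :
    ∃ (h : RMetric E5) (Γ : Conn E5) (g : RMetric E4) (ΓM : Conn E4) (φ : E4 → E5),
      h.Complete ∧ IsLeviCivita h Γ ∧ NonposCurved h Γ ∧
      g.Complete ∧ IsLeviCivita g ΓM ∧ IsIsometricImmersion g h φ ∧
      IsBiharmonic 4 g ΓM Γ φ ∧ ¬ IsMinimal 4 g ΓM Γ φ := by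
  refine ⟨hN, GN, gM, GM, phi, complete_N, levi_N, curv_nonpos, complete_M, levi_M, ⟨?_, ?_⟩, ?_, ?_⟩
  · unfold phi; fun_prop
  · intro q u v
    rw [fderiv_phi, fderiv_phi]
    change formM q u v = formN (phi q) (0, u) (0, v)
    rw [formM_apply, formN_apply, A2_phi, B2_phi]
    simp
  · intro e he q
    exact bitension_zero e he q
  · intro hmin
    have h1 := hmin fr fr_frame 0
    rw [tension_eq fr fr_frame] at h1
    have h2 := congrArg Prod.fst h1
    simp only [Prod.fst_zero] at h2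
    have h3 := f_pos 0
    linarith

end Pool.Agent.H110R3.Bih
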