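import Mathlib

set_option autoImplicit false

open scoped ContDiff

namespace Pool.Agent.H110R3.Bih

/-- A smooth Riemannian metric on the manifold `E`, where `E` is a real vector space (we use
`E = ℝ⁴` and `E = ℝ⁵`): to each point `p` a positive definite symmetric bilinear form on
`T_p E = E`, depending smoothly on `p`. -/
structure RMetric (E : Type*) [NormedAddCommGroup E] [NormedSpace ℝ E] where
  form : E → LinearMap.BilinForm ℝ E
  smooth : ∀ v w, ContDiff ℝ ∞ fun p => form p v w
  symm : ∀ p v w, form p v w = form p w v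
  pos : ∀ p v, v ≠ 0 → 0 < form p v v

/-- An affine connection on `E`, given by its Christoffel map: `∇_u v = Γ p u v` at `p` for
constant vector fields `u`, `v`. -/
abbrev Conn (E : Type*) [NormedAddCommGroup E] [NormedSpace ℝ E] := E → E →ₗ[ℝ] E →ₗ[ℝ] E

section

variable {E F : Type*} [NormedAddCommGroup E] [NormedSpace ℝ E]
  [NormedAddCommGroup F] [NormedSpace ℝ F]

/-- `Γ` is the Levi-Civita connection of the metric `h` (Koszul formula for constant vector
fields, which determines `Γ` since `h` is positive definite). -/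
def IsLeviCivita (h : RMetric E) (Γ : Conn E) : Prop :=
  ∀ p u v w : E, 2 * h.form p (Γ p u v) w =
    fderiv ℝ (fun x => h.form x v w) p u + fderiv ℝ (fun x => h.form x u w) p v
      - fderiv ℝ (fun x => h.form x u v) p w

/-- The curvature tensor `R(u,v)w = ∇_u ∇_v w - ∇_v ∇_u w - ∇_[u,v] w` of the connection `Γ`
(evaluated on constant vector fields). -/
noncomputable def curv (Γ : Conn E) (p u v w : E) : E :=
  fderiv ℝ (fun x => Γ x v w) p u - fderiv ℝ (fun x => Γ x u w) p v
    + Γ p u (Γ p v w) - Γ p v (Γ p u w)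

/-- All sectional curvatures are `≤ 0`: `⟨R(u,v)v, u⟩ ≤ 0` for all `u`, `v`. -/
def NonposCurved (h : RMetric E) (Γ : Conn E) : Prop :=
  ∀ p u v : E, h.form p (curv Γ p u v v) u ≤ 0

/-- The length of the curve `γ`, restricted to `[0,1]`. -/
noncomputable def RMetric.length (h : RMetric E) (γ : ℝ → E) : ENNReal :=
  ∫⁻ t in Set.Icc (0 : ℝ) 1, ENNReal.ofReal (Real.sqrt (h.form (γ t) (deriv γ t) (deriv γ t)))

/-- The Riemannian distance: the infimum of the lengths of the `C¹` curves from `p` to `q`. -/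
noncomputable def RMetric.rdist (h : RMetric E) (p q : E) : ENNReal :=
  ⨅ (γ : ℝ → E) (_ : ContDiff ℝ 1 γ) (_ : γ 0 = p) (_ : γ 1 = q), h.length γ

/-- The metric `h` is complete: every Cauchy sequence for the Riemannian distance converges. -/
def RMetric.Complete (h : RMetric E) : Prop :=
  ∀ s : ℕ → E, (∀ ε : ENNReal, 0 < ε → ∃ N, ∀ m ≥ N, ∀ n ≥ N, h.rdist (s m) (s n) < ε) →
    ∃ p, ∀ ε : ENNReal, 0 < ε → ∃ N, ∀ n ≥ N, h.rdist (s n) p < ε

/-- `φ : (F,g) → (E,h)` is a (smooth) isometric immersion. -/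
def IsIsometricImmersion (g : RMetric F) (h : RMetric E) (φ : F → E) : Prop :=
  ContDiff ℝ ∞ φ ∧ ∀ q u v : F, g.form q u v = h.form (φ q) (fderiv ℝ φ q u) (fderiv ℝ φ q v)

/-- The covariant derivative `∇^φ_u V` at `q` of the vector field `V` along `φ`. -/
noncomputable def covD (Γ : Conn E) (φ : F → E) (V : F → E) (q u : F) : E :=
  fderiv ℝ V q u + Γ (φ q) (fderiv ℝ φ q u) (V q)

/-- The second covariant derivative `(∇^φ_u ∇^φ_v - ∇^φ_{∇^M_u v}) V` at `q` of the vector field
`V` along `φ` (for constant vector fields `u`, `v` on `F`); `ΓM` is the connection of `F`. -/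
noncomputable def covD2 (ΓM : Conn F) (Γ : Conn E) (φ : F → E) (V : F → E) (q u v : F) : E :=
  covD Γ φ (fun x => covD Γ φ V x v) q u - covD Γ φ V q (ΓM q u v)

/-- The second fundamental form `∇dφ (u,v) = ∇^φ_u (dφ v) - dφ (∇^M_u v)` of the map `φ`. -/
noncomputable def hessMap (ΓM : Conn F) (Γ : Conn E) (φ : F → E) (q u v : F) : E :=
  covD Γ φ (fun x => fderiv ℝ φ x v) q u - fderiv ℝ φ q (ΓM q u v)

/-- `e` is a `g`-orthonormal frame of the `m`-dimensional manifold `F` (at each point, an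
orthonormal basis of the tangent space). -/
def IsFrame {m : ℕ} (g : RMetric F) (e : F → Fin m → F) : Prop :=
  ∀ q i j, g.form q (e q i) (e q j) = if i = j then 1 else 0

/-- The tension field `τ(φ) = trace_g ∇dφ`, the trace being taken in the orthonormal frame `e`. -/
noncomputable def tension {m : ℕ} (ΓM : Conn F) (Γ : Conn E) (φ : F → E) (e : F → Fin m → F)
    (q : F) : E :=
  ∑ i, hessMap ΓM Γ φ q (e q i) (e q i)

/-- The bitension field `τ₂(φ) = trace_g (∇^φ ∇^φ - ∇^φ_{∇^M}) τ(φ) - trace_g R(dφ, τ(φ)) dφ`,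
the traces being taken in the orthonormal frame `e`. -/
noncomputable def bitension {m : ℕ} (ΓM : Conn F) (Γ : Conn E) (φ : F → E) (e : F → Fin m → F)
    (q : F) : E :=
  ∑ i, covD2 ΓM Γ φ (tension ΓM Γ φ e) q (e q i) (e q i)
    - ∑ i, curv Γ (φ q) (fderiv ℝ φ q (e q i)) (tension ΓM Γ φ e q) (fderiv ℝ φ q (e q i))

/-- `φ` is biharmonic: `τ₂(φ) = 0` (in every orthonormal frame); `m` is the dimension of `F`. -/
def IsBiharmonic (m : ℕ) (g : RMetric F) (ΓM : Conn F) (Γ : Conn E) (φ : F → E) : Prop :=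
  ∀ e : F → Fin m → F, IsFrame g e → ∀ q, bitension ΓM Γ φ e q = 0

/-- `φ` is minimal (harmonic): `τ(φ) = 0` (in every orthonormal frame). -/
def IsMinimal (m : ℕ) (g : RMetric F) (ΓM : Conn F) (Γ : Conn E) (φ : F → E) : Prop :=
  ∀ e : F → Fin m → F, IsFrame g e → ∀ q, tension ΓM Γ φ e q = 0

end

end Pool.Agent.H110R3.Bih
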