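import Pool.Agent.Helper344.Ent.P_squares

set_option autoImplicit false

open Complex
open scoped Real

namespace Pool.Agent.H110R3.Flat

noncomputable def t3 (τ : ℂ) : ℂ := jacobiTheta₂ 0 τ
noncomputable def t4 (τ : ℂ) : ℂ := jacobiTheta₂ (1 / 2) τ
noncomputable def t2 (τ : ℂ) : ℂ := cexp (π * I * τ / 4) * jacobiTheta₂ (τ / 2) τ

/-- Jacobi's identity -/
lemma jacobi {τ : ℂ} (hτ : 0 < τ.im) : t3 τ ^ 4 = t2 τ ^ 4 + t4 τ ^ 4 := by
  have h3 := Helper344.Ent.squares_P hτ 0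
  have h4 := Helper344.Ent.squares_Q hτ 0
  have h2 := Helper344.Ent.squares_R hτ 0
  have e3 : Helper344.Ent.P τ 0 = t3 τ := rfl
  have e4 : Helper344.Ent.Q τ 0 = t4 τ := by
    simp [Helper344.Ent.Q, Helper344.Ent.P, t4]
  have e2 : Helper344.Ent.R τ 0 = t2 τ := by
    simp [Helper344.Ent.R, t2]
  rw [e3] at h3
  rw [e4] at h4
  rw [e2] at h2
  calc t3 τ ^ 4 = (t3 τ ^ 2) ^ 2 := by ring
    _ = (t2 τ ^ 2) ^ 2 + (t4 τ ^ 2) ^ 2 := by rw [h3, h4, h2]; ring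
    _ = _ := by ring

lemma theta_add_one (z τ : ℂ) : jacobiTheta₂ z (τ + 1) = jacobiTheta₂ (z + 1 / 2) τ := by
  unfold jacobiTheta₂
  refine tsum_congr fun n => ?_
  unfold jacobiTheta₂_term
  have h : ∃ k : ℤ, n ^ 2 - n = 2 * k := by
    obtain ⟨k, hk⟩ := (Int.even_mul_pred_self n)
    exact ⟨k, by rw [← two_mul] at hk; rw [← hk]; ring⟩
  obtain ⟨k, hk⟩ := h
  have hk' : (n : ℂ) ^ 2 - n = 2 * k := by exact_mod_cast hk
  have : 2 * π * I * n * z + π * I * n ^ 2 * (τ + 1) =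
      2 * π * I * n * (z + 1 / 2) + π * I * n ^ 2 * τ + k * (2 * π * I) := by
    linear_combination (π * I) * hk'
  rw [this, Complex.exp_add, Complex.exp_int_mul_two_pi_mul_I, mul_one]

lemma t3_T (τ : ℂ) : t3 (τ + 1) = t4 τ := by
  unfold t3 t4
  rw [theta_add_one, zero_add]

lemma t4_T (τ : ℂ) : t4 (τ + 1) = t3 τ := by
  unfold t3 t4
  rw [theta_add_one, show (1 / 2 + 1 / 2 : ℂ) = 0 + 1 by norm_num, jacobiTheta₂_add_left]

lemma t2_T (τ : ℂ) : t2 (τ + 1) = cexp (π * I / 4) * t2 τ := by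
  unfold t2
  rw [theta_add_one, show ((τ + 1) / 2 + 1 / 2 : ℂ) = τ / 2 + 1 by ring, jacobiTheta₂_add_left,
    show (π * I * (τ + 1) / 4 : ℂ) = π * I / 4 + π * I * τ / 4 by ring, Complex.exp_add]
  ring

lemma t2_T4 (τ : ℂ) : t2 (τ + 1) ^ 4 = - t2 τ ^ 4 := by
  rw [t2_T, mul_pow, ← Complex.exp_nat_mul]
  have : ((4 : ℕ) : ℂ) * (π * I / 4) = π * I := by push_cast; ring
  rw [this, Complex.exp_pi_mul_I]
  ring

/-- the automorphy factor -/
lemma cpow_four (τ : ℂ) (_hτ : 0 < τ.im) : ((-I * τ) ^ (1 / 2 : ℂ)) ^ 4 = - τ ^ 2 := by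
  rw [← Complex.cpow_nat_mul]
  have : ((4 : ℕ) : ℂ) * (1 / 2) = ((2 : ℕ) : ℂ) := by norm_num
  rw [this, Complex.cpow_natCast, mul_pow]
  simp

lemma ne_of_im {τ : ℂ} (hτ : 0 < τ.im) : τ ≠ 0 := by
  rintro rfl; simp at hτ

lemma t3_S {τ : ℂ} (hτ : 0 < τ.im) : t3 (-1 / τ) ^ 4 = - τ ^ 2 * t3 τ ^ 4 := by
  have h := jacobiTheta₂_functional_equation 0 τ
  have h0 := ne_of_im hτ
  have hc := cpow_four τ hτ
  have hc0 : (-I * τ) ^ (1 / 2 : ℂ) ≠ 0 := by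
    intro h; rw [h] at hc
    simp at hc
    exact h0 hc
  unfold t3
  rw [h]
  simp only [zero_div, ne_eq, OfNat.ofNat_ne_zero, not_false_eq_true, zero_pow, mul_zero, Complex.exp_zero, mul_one]
  rw [mul_pow, div_pow, hc]
  field_simp

lemma t4_S {τ : ℂ} (hτ : 0 < τ.im) : t2 (-1 / τ) ^ 4 = - τ ^ 2 * t4 τ ^ 4 := by
  have h := jacobiTheta₂_functional_equation (1 / 2) τ
  have h0 := ne_of_im hτ
  have hc := cpow_four τ hτ
  have hc0 : (-I * τ) ^ (1 / 2 : ℂ) ≠ 0 := by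
    intro h; rw [h] at hc
    simp at hc
    exact h0 hc
  have e : t4 τ = 1 / (-I * τ) ^ (1 / 2 : ℂ) * t2 (-1 / τ) := by
    unfold t4 t2
    rw [h, mul_assoc]
    congr 1
    have e1 : jacobiTheta₂ (1 / 2 / τ) (-1 / τ) = jacobiTheta₂ (-1 / τ / 2) (-1 / τ) := by
      rw [← jacobiTheta₂_neg_left]
      congr 1
      field_simp
    rw [e1]
    congr 2
    field_simp
    ring
  rw [e, mul_pow, div_pow, hc]
  field_simp

lemma t2_S {τ : ℂ} (hτ : 0 < τ.im) : t4 (-1 / τ) ^ 4 = - τ ^ 2 * t2 τ ^ 4 := by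
  have h := jacobiTheta₂_functional_equation (τ / 2) τ
  have h0 := ne_of_im hτ
  have hc := cpow_four τ hτ
  have hc0 : (-I * τ) ^ (1 / 2 : ℂ) ≠ 0 := by
    intro h; rw [h] at hc
    simp at hc
    exact h0 hc
  have e : t2 τ = 1 / (-I * τ) ^ (1 / 2 : ℂ) * t4 (-1 / τ) := by
    unfold t4 t2
    rw [h]
    have e1 : τ / 2 / τ = 1 / 2 := by field_simp
    rw [e1]
    have e2 : cexp (π * I * τ / 4) * cexp (-π * I * (τ / 2) ^ 2 / τ) = 1 := by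
      rw [← Complex.exp_add, ← Complex.exp_zero]
      congr 1
      field_simp
      ring
    linear_combination (1 / (-I * τ) ^ (1 / 2 : ℂ) * jacobiTheta₂ (1 / 2) (-1 / τ)) * e2
  rw [e, mul_pow, div_pow, hc]
  field_simp

end Pool.Agent.H110R3.Flat
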