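import Pool.Agent.H110R3.Flat1

set_option autoImplicit false

open UpperHalfPlane
open scoped Real Modular MatrixGroups

namespace Pool.Agent.H110R3.Flat

noncomputable def Th (τ : ℂ) : ℝ := ‖t2 τ ^ 4‖ + ‖t3 τ ^ 4‖ + ‖t4 τ ^ 4‖
noncomputable def Pi3 (τ : ℂ) : ℝ := ‖t2 τ ^ 4‖ * ‖t3 τ ^ 4‖ * ‖t4 τ ^ 4‖

noncomputable def GT (z : ℍ) : ℝ := z.im * Th z
noncomputable def GP (z : ℍ) : ℝ := z.im ^ 3 * Pi3 z

lemma coe_T (z : ℍ) : ((ModularGroup.T • z : ℍ) : ℂ) = (z : ℂ) + 1 := by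
  rw [modular_T_smul, coe_vadd]
  push_cast
  ring

lemma coe_S (z : ℍ) : ((ModularGroup.S • z : ℍ) : ℂ) = -1 / (z : ℂ) := by
  rw [modular_S_smul]
  change (-(z : ℂ))⁻¹ = _
  rw [neg_div, inv_neg, one_div]

lemma im_T (z : ℍ) : (ModularGroup.T • z : ℍ).im = z.im := by
  rw [← coe_im, coe_T]
  simp

lemma im_S (z : ℍ) : (ModularGroup.S • z : ℍ).im = z.im / ‖(z : ℂ)‖ ^ 2 := by
  rw [← coe_im, coe_S, neg_div, Complex.neg_im, one_div, Complex.inv_im, ← Complex.normSq_eq_norm_sq]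
  simp [neg_div]

lemma Th_T (z : ℍ) : Th ((ModularGroup.T • z : ℍ) : ℂ) = Th z := by
  unfold Th
  rw [coe_T, t2_T4, t3_T, t4_T, norm_neg]
  ring

lemma Th_S (z : ℍ) : Th ((ModularGroup.S • z : ℍ) : ℂ) = ‖(z : ℂ)‖ ^ 2 * Th z := by
  unfold Th
  have hz : 0 < (z : ℂ).im := z.im_pos
  rw [coe_S, t4_S hz, t3_S hz, t2_S hz]
  simp only [norm_mul, norm_neg, norm_pow]
  ring

lemma Pi3_T (z : ℍ) : Pi3 ((ModularGroup.T • z : ℍ) : ℂ) = Pi3 z := by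
  unfold Pi3
  rw [coe_T, t2_T4, t3_T, t4_T, norm_neg]
  ring

lemma Pi3_S (z : ℍ) : Pi3 ((ModularGroup.S • z : ℍ) : ℂ) = ‖(z : ℂ)‖ ^ 6 * Pi3 z := by
  unfold Pi3
  have hz : 0 < (z : ℂ).im := z.im_pos
  rw [coe_S, t4_S hz, t3_S hz, t2_S hz]
  simp only [norm_mul, norm_neg, norm_pow]
  ring

lemma GT_T (z : ℍ) : GT (ModularGroup.T • z) = GT z := by
  unfold GT; rw [Th_T, im_T]
lemma GP_T (z : ℍ) : GP (ModularGroup.T • z) = GP z := by
  unfold GP; rw [Pi3_T, im_T]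
lemma norm_ne (z : ℍ) : ‖(z : ℂ)‖ ≠ 0 := norm_ne_zero_iff.mpr (ne_of_im z.im_pos)
lemma GT_S (z : ℍ) : GT (ModularGroup.S • z) = GT z := by
  unfold GT; rw [Th_S, im_S]
  have := norm_ne z
  field_simp
lemma GP_S (z : ℍ) : GP (ModularGroup.S • z) = GP z := by
  unfold GP; rw [Pi3_S, im_S]
  have := norm_ne z
  field_simp

lemma inv_all (G : ℍ → ℝ) (hT : ∀ z, G (ModularGroup.T • z) = G z)
    (hS : ∀ z, G (ModularGroup.S • z) = G z) (g : SL(2, ℤ)) (z : ℍ) : G (g • z) = G z := by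
  have hg : g ∈ Subgroup.closure {ModularGroup.S, ModularGroup.T} := by
    simp [SpecialLinearGroup.SL2Z_generators]
  induction hg using Subgroup.closure_induction generalizing z with
  | one => simp
  | mem g hg =>
    simp only [Set.mem_insert_iff, Set.mem_singleton_iff] at hg
    rcases hg with rfl | rfl
    · exact hS z
    · exact hT z
  | mul g h _ _ ig ih => rw [mul_smul, ig, ih]
  | inv g _ ig =>
    have := ig (g⁻¹ • z)
    rw [smul_inv_smul] at this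
    exact this.symm

lemma exp_bound {y : ℝ} (hy : 0 < y) (h : 3 ≤ 4 * y ^ 2) : Real.exp (-π * y) ≤ 1 / 7 := by
  have hy' : 0.86 < y := by nlinarith
  have hpi := Real.pi_gt_d2
  have h1 : 2.7 ≤ π * y := by nlinarith
  have h2 := Real.quadratic_le_exp_of_nonneg (show (0 : ℝ) ≤ π * y by positivity)
  have h3 : 7 ≤ Real.exp (π * y) := by nlinarith
  have h4 : Real.exp (-π * y) = (Real.exp (π * y))⁻¹ := by
    rw [← Real.exp_neg]; congr 1; ring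
  rw [h4, inv_eq_one_div]
  exact one_div_le_one_div_of_le (by norm_num) h3

lemma t3_bound {τ : ℂ} (hτ : 0 < τ.im) (h : 3 ≤ 4 * τ.im ^ 2) : 2 / 3 ≤ ‖t3 τ‖ := by
  have h1 := norm_jacobiTheta_sub_one_le hτ
  rw [jacobiTheta_eq_jacobiTheta₂] at h1
  change ‖t3 τ - 1‖ ≤ _ at h1
  set r := Real.exp (-π * τ.im) with hr
  have hr1 : r ≤ 1 / 7 := exp_bound hτ h
  have hr0 : 0 < r := Real.exp_pos _
  have h2 : 2 / (1 - r) * r ≤ 1 / 3 := by
    rw [div_mul_eq_mul_div, div_le_iff₀ (by linarith)]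
    linarith
  have h3 : ‖(1 : ℂ)‖ ≤ ‖t3 τ‖ + ‖t3 τ - 1‖ := by
    calc ‖(1 : ℂ)‖ = ‖t3 τ - (t3 τ - 1)‖ := by congr 1; ring
      _ ≤ _ := norm_sub_le _ _
  rw [norm_one] at h3
  linarith

lemma t4_bound {τ : ℂ} (hτ : 0 < τ.im) (h : 3 ≤ 4 * τ.im ^ 2) : 2 / 3 ≤ ‖t4 τ‖ := by
  rw [← t3_T]
  apply t3_bound <;> simpa

lemma t2_ne {τ : ℂ} (hτ : 0 < τ.im) (h : 3 ≤ 4 * τ.im ^ 2) : t2 τ ≠ 0 := by
  unfold t2
  refine mul_ne_zero (Complex.exp_ne_zero _) ?_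
  set a : ℤ → ℂ := fun n => jacobiTheta₂_term n (τ / 2) τ with ha
  have hs : Summable a := (hasSum_jacobiTheta₂_term (τ / 2) hτ).summable
  have ha' : ∀ n : ℤ, a n = Complex.exp (π * Complex.I * ((n : ℂ) ^ 2 + n) * τ) := by
    intro n
    simp only [ha, jacobiTheta₂_term]
    congr 1; ring
  have hsym : ∀ n : ℕ, a (-((n : ℤ) + 1)) = a n := by
    intro n
    rw [ha', ha']
    congr 1; push_cast; ring
  have hsn : Summable fun n : ℕ => a n := hs.comp_injective Nat.cast_injective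
  have hsn' : Summable fun n : ℕ => a (-((n : ℤ) + 1)) := by
    simp only [hsym]; exact hsn
  have h1 : jacobiTheta₂ (τ / 2) τ = 2 * ∑' n : ℕ, a n := by
    unfold jacobiTheta₂
    rw [tsum_of_nat_of_neg_add_one hsn hsn']
    simp only [hsym]
    ring
  rw [h1]
  refine mul_ne_zero two_ne_zero ?_
  rw [hsn.tsum_eq_zero_add]
  have ha0 : a ((0 : ℕ) : ℤ) = 1 := by rw [ha']; simp
  rw [ha0]
  have hb : ‖∑' n : ℕ, a ((n + 1 : ℕ) : ℤ)‖ ≤ 1 / 6 := by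
    have hr1 : Real.exp (-π * τ.im) ≤ 1 / 7 := exp_bound hτ h
    have hr0 : 0 < Real.exp (-π * τ.im) := Real.exp_pos _
    have hterm : ∀ n : ℕ, ‖a ((n + 1 : ℕ) : ℤ)‖ ≤ (1 / 7 : ℝ) ^ (n + 1) := by
      intro n
      rw [ha', Complex.norm_exp]
      have e1 : (π * Complex.I * ((((n + 1 : ℕ) : ℤ) : ℂ) ^ 2 + (((n + 1 : ℕ) : ℤ) : ℂ)) * τ).re =
          -π * τ.im * (((n : ℝ) + 1) * ((n : ℝ) + 2)) := by
        have : (π * Complex.I * ((((n + 1 : ℕ) : ℤ) : ℂ) ^ 2 + (((n + 1 : ℕ) : ℤ) : ℂ)) * τ) =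
            ((π * (((n : ℝ) + 1) * ((n : ℝ) + 2)) : ℝ) : ℂ) * (Complex.I * τ) := by
          push_cast; ring
        rw [this, Complex.re_ofReal_mul]
        simp
        ring
      rw [e1]
      have e2 : -π * τ.im * (((n : ℝ) + 1) * ((n : ℝ) + 2)) ≤ -π * τ.im * ((n + 1 : ℕ) : ℝ) := by
        have hneg : -π * τ.im ≤ 0 := by
          have := Real.pi_pos
          nlinarith
        apply mul_le_mul_of_nonpos_left _ hneg
        push_cast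
        have : (0 : ℝ) ≤ n := Nat.cast_nonneg n
        nlinarith
      calc Real.exp (-π * τ.im * (((n : ℝ) + 1) * ((n : ℝ) + 2))) ≤ Real.exp (-π * τ.im * ((n + 1 : ℕ) : ℝ)) :=
            Real.exp_le_exp.mpr e2
        _ = Real.exp (-π * τ.im) ^ (n + 1) := by
            rw [← Real.exp_nat_mul]; congr 1; ring
        _ ≤ (1 / 7) ^ (n + 1) := pow_le_pow_left₀ hr0.le hr1 _
    have hgeo : HasSum (fun n : ℕ => (1 / 7 : ℝ) ^ (n + 1)) (1 / 6) := by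
      have h0 := (hasSum_geometric_of_lt_one (r := (1 / 7 : ℝ)) (by norm_num) (by norm_num)).mul_left (1 / 7)
      have e1 : (fun n : ℕ => (1 / 7 : ℝ) ^ (n + 1)) = fun i => 1 / 7 * (1 / 7) ^ i := by
        funext n; ring
      have e2 : (1 / 6 : ℝ) = 1 / 7 * (1 - 1 / 7)⁻¹ := by norm_num
      rw [e1, e2]
      exact h0
    exact tsum_of_norm_bounded hgeo hterm
  intro hcon
  have : (∑' n : ℕ, a ((n + 1 : ℕ) : ℤ)) = -1 := by linear_combination hcon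
  rw [this] at hb
  norm_num at hb

lemma Th_fd (z : ℍ) (h : 3 ≤ 4 * z.im ^ 2) : 1 / 10 ≤ GT z := by
  have hz : 0 < (z : ℂ).im := z.im_pos
  have h3 := t3_bound hz h
  have hy : 0.8 < z.im := by
    have := z.im_pos
    nlinarith
  unfold GT Th
  have h5 : (2 / 3 : ℝ) ^ 4 ≤ ‖t3 z ^ 4‖ := by
    rw [norm_pow]
    exact pow_le_pow_left₀ (by norm_num) h3 4
  have h6 : (16 / 81 : ℝ) ≤ ‖t2 z ^ 4‖ + ‖t3 z ^ 4‖ + ‖t4 z ^ 4‖ := by
    have := norm_nonneg (t2 z ^ 4)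
    have := norm_nonneg (t4 z ^ 4)
    have e : (2 / 3 : ℝ) ^ 4 = 16 / 81 := by norm_num
    rw [e] at h5
    linarith
  nlinarith

lemma GP_fd (z : ℍ) (h : 3 ≤ 4 * z.im ^ 2) : 0 < GP z := by
  have hz : 0 < (z : ℂ).im := z.im_pos
  have h3 := t3_bound hz h
  have h4 := t4_bound hz h
  have h2 := t2_ne hz h
  unfold GP Pi3
  have e3 : 0 < ‖t3 z ^ 4‖ := by rw [norm_pow]; positivity
  have e4 : 0 < ‖t4 z ^ 4‖ := by rw [norm_pow]; positivity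
  have e2 : 0 < ‖t2 z ^ 4‖ := norm_pos_iff.mpr (pow_ne_zero 4 h2)
  have := z.im_pos
  positivity

/-- the conformal factor is bounded below by the hyperbolic metric -/
theorem Th_lower {τ : ℂ} (hτ : 0 < τ.im) : 1 / 10 ≤ τ.im * Th τ := by
  obtain ⟨g, hg⟩ := ModularGroup.exists_smul_mem_fd ⟨τ, hτ⟩
  have h1 := Th_fd _ (ModularGroup.three_le_four_mul_im_sq_of_mem_fd hg)
  rw [inv_all GT GT_T GT_S] at h1
  exact h1

theorem theta_ne {τ : ℂ} (hτ : 0 < τ.im) : t2 τ ≠ 0 ∧ t3 τ ≠ 0 ∧ t4 τ ≠ 0 := by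
  obtain ⟨g, hg⟩ := ModularGroup.exists_smul_mem_fd ⟨τ, hτ⟩
  have h1 := GP_fd _ (ModularGroup.three_le_four_mul_im_sq_of_mem_fd hg)
  rw [inv_all GP GP_T GP_S] at h1
  have h2 : Pi3 τ ≠ 0 := by
    intro h
    unfold GP at h1
    have : ((⟨τ, hτ⟩ : ℍ) : ℂ) = τ := rfl
    rw [this, h, mul_zero] at h1
    exact lt_irrefl _ h1
  unfold Pi3 at h2
  refine ⟨?_, ?_, ?_⟩ <;> intro h <;> apply h2 <;> simp [h]

/-- `|θ₂|⁴ + |θ₃|⁴` is bounded below by the hyperbolic metric -/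
theorem lower {τ : ℂ} (hτ : 0 < τ.im) : 1 / 20 ≤ τ.im * (‖t2 τ‖ ^ 4 + ‖t3 τ‖ ^ 4) := by
  have h1 := Th_lower hτ
  have h2 := jacobi hτ
  have h3 : ‖t4 τ ^ 4‖ ≤ ‖t3 τ ^ 4‖ + ‖t2 τ ^ 4‖ := by
    have : t4 τ ^ 4 = t3 τ ^ 4 - t2 τ ^ 4 := by rw [h2]; ring
    rw [this]
    exact norm_sub_le _ _
  unfold Th at h1
  simp only [norm_pow] at h1 h3
  nlinarith

end Pool.Agent.H110R3.Flat
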