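import Mathlib

set_option autoImplicit false

open MeasureTheory Set Filter Topology

namespace Pool.Agent.H110R3.Flat

/-- completeness of the hyperbolic metric of the disc -/
theorem complete_disc (γ : ℝ → ℂ) (hγ : ContDiffOn ℝ 1 γ (Ico 0 1))
    (hm : MapsTo γ (Ico 0 1) (Metric.ball 0 1))
    (hK : ∀ K : Set ℂ, IsCompact K → K ⊆ Metric.ball 0 1 → ∀ᶠ t in 𝓝[<] (1 : ℝ), γ t ∉ K)
    (v : ℝ → ℝ) (c : ℝ) (hc : 0 < c)
    (hv : ∀ t ∈ Ioo (0 : ℝ) 1, c * (‖deriv γ t‖ / (1 - ‖γ t‖ ^ 2)) ≤ v t) :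
    ∫⁻ t in Ioo (0 : ℝ) 1, ENNReal.ofReal (v t) = ⊤ := by
  set u : ℝ → ℝ := fun t => 1 - ‖γ t‖ ^ 2 with hu
  have hupos : ∀ t ∈ Ico (0 : ℝ) 1, 0 < u t := by
    intro t ht
    have h1 := hm ht
    rw [mem_ball_zero_iff] at h1
    have h0 := norm_nonneg (γ t)
    simp only [hu]
    nlinarith
  have hγo : ContDiffOn ℝ 1 γ (Ioo 0 1) := hγ.mono Ioo_subset_Ico_self
  have hdγ : ∀ t ∈ Ioo (0 : ℝ) 1, HasDerivAt γ (deriv γ t) t := by
    intro t ht
    exact ((hγo.differentiableOn (by norm_num)).differentiableAt (Ioo_mem_nhds ht.1 ht.2)).hasDerivAt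
  have hcγ : ContinuousOn (deriv γ) (Ioo 0 1) :=
    hγo.continuousOn_deriv_of_isOpen isOpen_Ioo (by norm_num)
  have hdu : ∀ t ∈ Ioo (0 : ℝ) 1, HasDerivAt u (-(2 * inner ℝ (γ t) (deriv γ t))) t := by
    intro t ht
    have h1 := (hdγ t ht).norm_sq
    exact h1.const_sub 1
  set L' : ℝ → ℝ := fun t => -(2 * inner ℝ (γ t) (deriv γ t)) / u t with hL'
  have hdL : ∀ t ∈ Ioo (0 : ℝ) 1, HasDerivAt (fun t => Real.log (u t)) (L' t) t := by
    intro t ht
    exact (hdu t ht).log (hupos t ⟨ht.1.le, ht.2⟩).ne'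
  have hcL : ContinuousOn L' (Ioo 0 1) := by
    refine ContinuousOn.div ?_ ?_ fun t ht => (hupos t ⟨ht.1.le, ht.2⟩).ne'
    · have h1 : ContinuousOn (fun t => inner ℝ (γ t) (deriv γ t)) (Ioo 0 1) :=
        ContinuousOn.inner (𝕜 := ℝ) hγo.continuousOn hcγ
      exact (continuousOn_const.mul h1).neg
    · exact continuousOn_const.sub (hγo.continuousOn.norm.pow 2)
  have hbound : ∀ t ∈ Ioo (0 : ℝ) 1, ‖L' t‖ ≤ (2 / c) * v t := by
    intro t ht
    have hut := hupos t ⟨ht.1.le, ht.2⟩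
    have h1 := hm (Ioo_subset_Ico_self ht)
    rw [mem_ball_zero_iff] at h1
    have h2 : |inner ℝ (γ t) (deriv γ t)| ≤ ‖γ t‖ * ‖deriv γ t‖ := abs_real_inner_le_norm _ _
    have h3 : ‖L' t‖ ≤ 2 * (‖deriv γ t‖ / u t) := by
      simp only [hL']
      rw [norm_div, Real.norm_eq_abs, Real.norm_eq_abs, abs_neg, abs_mul, abs_of_pos hut, abs_two,
        mul_div_assoc]
      have h4 : |inner ℝ (γ t) (deriv γ t)| ≤ ‖deriv γ t‖ :=
        h2.trans (by nlinarith [norm_nonneg (deriv γ t), norm_nonneg (γ t)])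
      gcongr
    have h5 := hv t ht
    have h6 : ‖deriv γ t‖ / u t ≤ v t / c := by
      rw [le_div_iff₀ hc]
      calc ‖deriv γ t‖ / u t * c = c * (‖deriv γ t‖ / (1 - ‖γ t‖ ^ 2)) := by simp only [hu]; ring
        _ ≤ v t := h5
    calc ‖L' t‖ ≤ 2 * (‖deriv γ t‖ / u t) := h3
      _ ≤ 2 * (v t / c) := by gcongr
      _ = (2 / c) * v t := by ring
  -- the integral dominates the variation of log u
  have hI : ∀ t ∈ Ioo (1 / 2 : ℝ) 1, ENNReal.ofReal (Real.log (u (1 / 2)) - Real.log (u t)) ≤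
      ENNReal.ofReal (2 / c) * ∫⁻ t in Ioo (0 : ℝ) 1, ENNReal.ofReal (v t) := by
    intro t ht
    have hsub : Icc (1 / 2 : ℝ) t ⊆ Ioo 0 1 := fun x hx => ⟨by linarith [hx.1], by linarith [hx.2, ht.2]⟩
    have hint : IntervalIntegrable L' volume (1 / 2) t := by
      apply ContinuousOn.intervalIntegrable
      rw [uIcc_of_le ht.1.le]
      exact hcL.mono hsub
    have hftc : ∫ x in (1 / 2 : ℝ)..t, L' x = Real.log (u t) - Real.log (u (1 / 2)) := by
      apply intervalIntegral.integral_eq_sub_of_hasDerivAt _ hint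
      intro x hx
      rw [uIcc_of_le ht.1.le] at hx
      exact hdL x (hsub hx)
    calc ENNReal.ofReal (Real.log (u (1 / 2)) - Real.log (u t))
        ≤ ENNReal.ofReal ‖∫ x in (1 / 2 : ℝ)..t, L' x‖ := by
          apply ENNReal.ofReal_le_ofReal
          rw [hftc, Real.norm_eq_abs]
          exact (le_abs_self _).trans (abs_sub_comm _ _).le
      _ = ‖∫ x in Ioc (1 / 2 : ℝ) t, L' x‖ₑ := by
          rw [intervalIntegral.integral_of_le ht.1.le, ofReal_norm]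
      _ ≤ ∫⁻ x in Ioc (1 / 2 : ℝ) t, ‖L' x‖ₑ := enorm_integral_le_lintegral_enorm _
      _ ≤ ∫⁻ x in Ioc (1 / 2 : ℝ) t, ENNReal.ofReal (2 / c) * ENNReal.ofReal (v x) := by
          refine setLIntegral_mono' measurableSet_Ioc fun x hx => ?_
          rw [← ofReal_norm, ← ENNReal.ofReal_mul (by positivity)]
          exact ENNReal.ofReal_le_ofReal (hbound x (hsub ⟨hx.1.le, hx.2⟩))
      _ = ENNReal.ofReal (2 / c) * ∫⁻ x in Ioc (1 / 2 : ℝ) t, ENNReal.ofReal (v x) := by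
          rw [lintegral_const_mul' _ _ ENNReal.ofReal_ne_top]
      _ ≤ ENNReal.ofReal (2 / c) * ∫⁻ t in Ioo (0 : ℝ) 1, ENNReal.ofReal (v t) := by
          gcongr
          intro x hx
          exact hsub ⟨hx.1.le, hx.2⟩
  by_contra hne
  set J := ENNReal.ofReal (2 / c) * ∫⁻ t in Ioo (0 : ℝ) 1, ENNReal.ofReal (v t) with hJ
  have hJtop : J ≠ ⊤ := ENNReal.mul_ne_top ENNReal.ofReal_ne_top hne
  set M := J.toReal with hM
  -- find t with u t small
  set δ := min (u (1 / 2) * Real.exp (-(M + 1))) (1 / 2) with hδ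
  have hu2 := hupos (1 / 2) ⟨by norm_num, by norm_num⟩
  have hδ0 : 0 < δ := lt_min (mul_pos hu2 (Real.exp_pos _)) (by norm_num)
  have hδ1 : δ ≤ 1 / 2 := min_le_right _ _
  have hcomp := hK (Metric.closedBall 0 (Real.sqrt (1 - δ))) (isCompact_closedBall _ _) (by
    apply Metric.closedBall_subset_ball
    rw [Real.sqrt_lt' one_pos]
    linarith)
  have h12 : ∀ᶠ t in 𝓝[<] (1 : ℝ), t ∈ Ioo (1 / 2 : ℝ) 1 := Ioo_mem_nhdsLT (by norm_num)
  obtain ⟨t, ht1, ht2⟩ := (hcomp.and h12).exists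
  have hut := hupos t ⟨by linarith [ht2.1], ht2.2⟩
  have hsmall : u t < δ := by
    rw [mem_closedBall_zero_iff, not_le] at ht1
    have h1 : 1 - δ < ‖γ t‖ ^ 2 := by
      calc 1 - δ = Real.sqrt (1 - δ) ^ 2 := (Real.sq_sqrt (by linarith)).symm
        _ < ‖γ t‖ ^ 2 := by
          apply pow_lt_pow_left₀ ht1 (Real.sqrt_nonneg _) (by norm_num)
    simp only [hu]
    linarith
  have h3 := hI t ht2
  have h4 : Real.log (u (1 / 2)) - Real.log (u t) ≤ M := by
    have := (ENNReal.ofReal_le_iff_le_toReal hJtop).mp h3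
    exact this
  have h5 : Real.log (u t) < Real.log (u (1 / 2)) - (M + 1) := by
    have h6 : u t < u (1 / 2) * Real.exp (-(M + 1)) := lt_of_lt_of_le hsmall (min_le_left _ _)
    have h7 := Real.log_lt_log hut h6
    rw [Real.log_mul hu2.ne' (Real.exp_pos _).ne', Real.log_exp] at h7
    linarith
  linarith

end Pool.Agent.H110R3.Flat
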