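import Pool.Agent.H110R3.Flat2
import Pool.Agent.H110R3.Flat3

set_option autoImplicit false

open Complex Set Filter Topology

namespace Pool.Agent.H110R3.Flat

/-- the unit disc -/
abbrev D : Set ℂ := Metric.ball (0 : ℂ) 1

/-- the branched covering `w ↦ i (1 + w²) / (1 - w²)` of the upper half plane -/
noncomputable def sm (w : ℂ) : ℂ := I * (1 + w ^ 2) / (1 - w ^ 2)
/-- twice the derivative of the Cayley transform at `w²` -/
noncomputable def kk (w : ℂ) : ℂ := 4 * I / (1 - w ^ 2) ^ 2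

lemma sq_ne {w : ℂ} (hw : w ∈ D) : 1 - w ^ 2 ≠ 0 := by
  rw [mem_ball_zero_iff] at hw
  intro h
  have h1 : w ^ 2 = 1 := by linear_combination -h
  have h2 : ‖w‖ ^ 2 = 1 := by rw [← norm_pow, h1, norm_one]
  nlinarith [norm_nonneg w]

lemma sm_im {w : ℂ} (hw : w ∈ D) : (sm w).im = (1 - ‖w‖ ^ 4) / ‖1 - w ^ 2‖ ^ 2 := by
  unfold sm
  have h0 := sq_ne hw
  have h1 : ‖w‖ ^ 4 = Complex.normSq (w ^ 2) := by
    rw [Complex.normSq_eq_norm_sq, norm_pow]; ring
  rw [h1, ← Complex.normSq_eq_norm_sq, Complex.div_im]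
  have h2 : Complex.normSq (1 - w ^ 2) ≠ 0 := by rwa [Ne, Complex.normSq_eq_zero]
  field_simp
  simp only [Complex.normSq_apply, Complex.mul_im, Complex.mul_re, Complex.I_re, Complex.I_im,
    Complex.add_re, Complex.add_im, Complex.sub_re, Complex.sub_im, Complex.one_re, Complex.one_im]
  ring

lemma sm_im_pos {w : ℂ} (hw : w ∈ D) : 0 < (sm w).im := by
  rw [sm_im hw]
  have h0 := sq_ne hw
  have h1 : 0 < ‖1 - w ^ 2‖ := norm_pos_iff.mpr h0
  rw [mem_ball_zero_iff] at hw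
  have h2 : ‖w‖ ^ 4 < 1 := pow_lt_one₀ (norm_nonneg _) hw (by norm_num)
  have : 0 < 1 - ‖w‖ ^ 4 := by linarith
  positivity

noncomputable def aa (w : ℂ) : ℂ := t2 (sm w)
noncomputable def bb (w : ℂ) : ℂ := t3 (sm w)
noncomputable def gg (w : ℂ) : ℂ := aa w ^ 2 / bb w ^ 2
noncomputable def hh (w : ℂ) : ℂ := kk w * bb w ^ 4

lemma aa_ne {w : ℂ} (hw : w ∈ D) : aa w ≠ 0 := (theta_ne (sm_im_pos hw)).1
lemma bb_ne {w : ℂ} (hw : w ∈ D) : bb w ≠ 0 := (theta_ne (sm_im_pos hw)).2.1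
lemma kk_ne {w : ℂ} (hw : w ∈ D) : kk w ≠ 0 := by
  unfold kk
  exact div_ne_zero (mul_ne_zero (by norm_num) I_ne_zero) (pow_ne_zero 2 (sq_ne hw))
lemma hh_ne {w : ℂ} (hw : w ∈ D) : hh w ≠ 0 := mul_ne_zero (kk_ne hw) (pow_ne_zero 4 (bb_ne hw))
lemma gg_ne {w : ℂ} (hw : w ∈ D) : gg w ≠ 0 :=
  div_ne_zero (pow_ne_zero 2 (aa_ne hw)) (pow_ne_zero 2 (bb_ne hw))

lemma gg_sq_ne {w : ℂ} (hw : w ∈ D) : gg w ^ 2 ≠ 1 := by
  intro h
  have hb := bb_ne hw
  have hj := jacobi (sm_im_pos hw)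
  have h4 := (theta_ne (sm_im_pos hw)).2.2
  unfold gg at h
  have h5 : aa w ^ 4 = bb w ^ 4 := by
    field_simp at h
    linear_combination h
  have h6 : t4 (sm w) ^ 4 = 0 := by
    have e : bb w ^ 4 = aa w ^ 4 + t4 (sm w) ^ 4 := hj
    linear_combination -h5 - e
  exact h4 (pow_eq_zero_iff (by norm_num) |>.mp h6)

lemma differentiableAt_t3 {τ : ℂ} (hτ : 0 < τ.im) : DifferentiableAt ℂ t3 τ :=
  differentiableAt_jacobiTheta₂_snd 0 hτ

lemma differentiableAt_t2 {τ : ℂ} (hτ : 0 < τ.im) : DifferentiableAt ℂ t2 τ := by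
  unfold t2
  have h1 : DifferentiableAt ℂ (fun τ : ℂ => jacobiTheta₂ (τ / 2) τ) τ := by
    have h2 := (hasFDerivAt_jacobiTheta₂ (τ / 2) hτ).differentiableAt
    have h3 : DifferentiableAt ℂ (fun τ : ℂ => (τ / 2, τ)) τ := by fun_prop
    exact DifferentiableAt.comp τ (g := fun p : ℂ × ℂ => jacobiTheta₂ p.1 p.2) (f := fun τ : ℂ => (τ / 2, τ)) h2 h3
  exact DifferentiableAt.fun_mul (by fun_prop) h1

lemma differentiableAt_sm {w : ℂ} (hw : w ∈ D) : DifferentiableAt ℂ sm w := by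
  unfold sm
  exact DifferentiableAt.fun_div (by fun_prop) (by fun_prop) (sq_ne hw)

lemma differentiableAt_kk {w : ℂ} (hw : w ∈ D) : DifferentiableAt ℂ kk w := by
  unfold kk
  exact DifferentiableAt.fun_div (by fun_prop) (by fun_prop) (pow_ne_zero 2 (sq_ne hw))

lemma differentiableAt_aa {w : ℂ} (hw : w ∈ D) : DifferentiableAt ℂ aa w :=
  (differentiableAt_t2 (sm_im_pos hw)).comp w (differentiableAt_sm hw)
lemma differentiableAt_bb {w : ℂ} (hw : w ∈ D) : DifferentiableAt ℂ bb w :=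
  (differentiableAt_t3 (sm_im_pos hw)).comp w (differentiableAt_sm hw)

lemma differentiableAt_gg {w : ℂ} (hw : w ∈ D) : DifferentiableAt ℂ gg w := by
  unfold gg
  exact DifferentiableAt.fun_div ((differentiableAt_aa hw).fun_pow 2) ((differentiableAt_bb hw).fun_pow 2)
    (pow_ne_zero 2 (bb_ne hw))
lemma differentiableAt_hh {w : ℂ} (hw : w ∈ D) : DifferentiableAt ℂ hh w := by
  unfold hh
  exact (differentiableAt_kk hw).fun_mul ((differentiableAt_bb hw).fun_pow 4)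

lemma zero_mem_D : (0 : ℂ) ∈ D := Metric.mem_ball_self one_pos

/-- the flat point -/
lemma deriv_gg_zero : HasDerivAt gg 0 0 := by
  have h1 : HasDerivAt sm 0 0 := by
    unfold sm
    have ha : HasDerivAt (fun w : ℂ => I * (1 + w ^ 2)) 0 0 := by
      have := ((hasDerivAt_pow 2 (0 : ℂ)).const_add 1).const_mul I
      simpa using this
    have hb : HasDerivAt (fun w : ℂ => 1 - w ^ 2) 0 0 := by
      have := ((hasDerivAt_pow 2 (0 : ℂ)).const_sub 1)
      simpa using this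
    have := ha.fun_div hb (by simp)
    simpa using this
  have h2 : HasDerivAt aa 0 0 := by
    have := (differentiableAt_t2 (sm_im_pos zero_mem_D)).hasDerivAt.comp (0 : ℂ) h1
    rw [mul_zero] at this
    exact this
  have h3 : HasDerivAt bb 0 0 := by
    have := (differentiableAt_t3 (sm_im_pos zero_mem_D)).hasDerivAt.comp (0 : ℂ) h1
    rw [mul_zero] at this
    exact this
  have h4 : HasDerivAt (fun w => aa w ^ 2) 0 0 := by simpa using h2.fun_pow 2
  have h5 : HasDerivAt (fun w => bb w ^ 2) 0 0 := by simpa using h3.fun_pow 2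
  have := h4.fun_div h5 (pow_ne_zero 2 (bb_ne zero_mem_D))
  unfold gg
  simpa using this

/-- lower bound of the conformal factor -/
lemma factor_lower {w : ℂ} (hw : w ∈ D) :
    1 / 20 * (1 / (1 - ‖w‖ ^ 2)) ≤ ‖hh w‖ * (1 + ‖gg w‖ ^ 2) / 2 := by
  have h1 := lower (sm_im_pos hw)
  have hb := bb_ne hw
  have hbn : 0 < ‖bb w‖ := norm_pos_iff.mpr hb
  have e1 : ‖hh w‖ * (1 + ‖gg w‖ ^ 2) = ‖kk w‖ * (‖aa w‖ ^ 4 + ‖bb w‖ ^ 4) := by
    unfold hh gg
    rw [norm_mul, norm_div, norm_pow, norm_pow, norm_pow]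
    field_simp
    ring
  rw [e1]
  rw [sm_im hw] at h1
  have h0 : 0 < ‖1 - w ^ 2‖ := norm_pos_iff.mpr (sq_ne hw)
  have hk : ‖kk w‖ = 4 / ‖1 - w ^ 2‖ ^ 2 := by
    unfold kk
    rw [norm_div, norm_mul, norm_pow, Complex.norm_I]
    norm_num
  rw [hk]
  rw [mem_ball_zero_iff] at hw
  set x := ‖w‖ ^ 2 with hx
  have hx1 : x < 1 := pow_lt_one₀ (norm_nonneg _) hw (by norm_num)
  have hx0 : 0 ≤ x := by positivity
  have e4 : ‖w‖ ^ 4 = x ^ 2 := by rw [hx]; ring
  rw [e4] at h1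
  change 1 / 20 ≤ _ * (‖aa w‖ ^ 4 + ‖bb w‖ ^ 4) at h1
  set S := ‖aa w‖ ^ 4 + ‖bb w‖ ^ 4 with hS
  set n := ‖1 - w ^ 2‖ ^ 2 with hn
  have hn0 : 0 < n := by positivity
  have h2 : n / 20 ≤ (1 - x ^ 2) * S := by
    have := mul_le_mul_of_nonneg_right h1 hn0.le
    calc n / 20 = 1 / 20 * n := by ring
      _ ≤ _ := this
      _ = (1 - x ^ 2) * S := by field_simp
  have h3 : 0 < 1 - x := by linarith
  rw [mul_one_div, div_le_div_iff₀ h3 two_pos]
  have h5 : 0 ≤ S := by positivity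
  have h6 : (1 - x ^ 2) * S ≤ 2 * (1 - x) * S := by
    apply mul_le_mul_of_nonneg_right _ h5
    nlinarith
  have h7 : 4 / n * S * (1 - x) = (4 * (S * (1 - x))) / n := by ring
  rw [h7, le_div_iff₀ hn0]
  nlinarith

/-- the Gauss map is not constant -/
lemma gg_nonconst : ∃ w₁ ∈ D, ∃ w₂ ∈ D, gg w₁ ≠ gg w₂ := by
  by_contra hcon
  push Not at hcon
  -- every point of the upper half plane is attained by `sm`
  have hsurj : ∀ τ : ℂ, 0 < τ.im → ∃ w ∈ D, sm w = τ := by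
    intro τ hτ
    have hne : τ + I ≠ 0 := by
      intro h
      have := congrArg Complex.im h
      simp at this
      linarith
    obtain ⟨w, hw⟩ := IsAlgClosed.exists_pow_nat_eq ((τ - I) / (τ + I)) (n := 2) (by norm_num)
    have hnorm : ‖(τ - I) / (τ + I)‖ < 1 := by
      rw [norm_div, div_lt_one (norm_pos_iff.mpr hne)]
      apply lt_of_pow_lt_pow_left₀ 2 (norm_nonneg _)
      rw [← Complex.normSq_eq_norm_sq, ← Complex.normSq_eq_norm_sq, Complex.normSq_apply, Complex.normSq_apply]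
      simp
      nlinarith
    refine ⟨w, ?_, ?_⟩
    · rw [mem_ball_zero_iff]
      rw [← hw, norm_pow] at hnorm
      by_contra h
      push Not at h
      have : 1 ≤ ‖w‖ ^ 2 := one_le_pow₀ h
      linarith
    · unfold sm
      rw [hw]
      have h2 : (1 : ℂ) - (τ - I) / (τ + I) ≠ 0 := by
        intro h
        have : (1 : ℂ) = (τ - I) / (τ + I) := by linear_combination h
        rw [← this] at hnorm
        simp at hnorm
      have h3 : (1 : ℂ) - (τ - I) / (τ + I) = 2 * I / (τ + I) := by field_simp; ring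
      rw [h3]
      have hI : (I : ℂ) ≠ 0 := I_ne_zero
      field_simp
      ring
  have key : ∀ τ τ' : ℂ, 0 < τ.im → 0 < τ'.im → t2 τ ^ 4 * t3 τ' ^ 4 = t2 τ' ^ 4 * t3 τ ^ 4 := by
    intro τ τ' hτ hτ'
    obtain ⟨w, hw, rfl⟩ := hsurj τ hτ
    obtain ⟨w', hw', rfl⟩ := hsurj τ' hτ'
    have h := hcon w hw w' hw'
    have hb := bb_ne hw
    have hb' := bb_ne hw'
    unfold gg at h
    rw [div_eq_div_iff (pow_ne_zero 2 hb) (pow_ne_zero 2 hb')] at h
    change aa w ^ 4 * bb w' ^ 4 = aa w' ^ 4 * bb w ^ 4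
    have := congrArg (fun z => z ^ 2) h
    linear_combination this
  have hI : 0 < (I : ℂ).im := by simp
  have hI1 : 0 < (I + 1 : ℂ).im := by simp
  have hIi : (-1 / I : ℂ) = I := by
    rw [neg_div, one_div, Complex.inv_I, neg_neg]
  have hJ := jacobi hI
  have h1 := key I (I + 1) hI hI1
  rw [t3_T, t2_T4] at h1
  have h2 := t4_S hI
  rw [hIi, I_sq] at h2
  -- t2 I ^ 4 = t4 I ^ 4
  have h3 : t2 I ^ 4 = t4 I ^ 4 := by rw [h2]; ring
  obtain ⟨n2, n3, n4⟩ := theta_ne hI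
  have h4 : t4 I ^ 4 = - t3 I ^ 4 := by
    have : t2 I ^ 4 * (t4 I ^ 4 + t3 I ^ 4) = 0 := by linear_combination h1
    have := (mul_eq_zero.mp this).resolve_left (pow_ne_zero 4 n2)
    linear_combination this
  have h5 : t3 I ^ 4 = 0 := by
    have : 3 * t3 I ^ 4 = 0 := by linear_combination hJ + h3 + 2 * h4
    exact (mul_eq_zero.mp this).resolve_left (by norm_num)
  exact pow_ne_zero 4 n3 h5

end Pool.Agent.H110R3.Flat
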