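import Pool.Agent.H110R3.Flat4

set_option autoImplicit false

open Complex Set Filter Topology

namespace Pool.Agent.H110R3.Flat

/-- the Weierstrass forms -/
noncomputable def ph (k : Fin 3) (w : ℂ) : ℂ :=
  ![hh w * (1 - gg w ^ 2) / 2, I * hh w * (1 + gg w ^ 2) / 2, hh w * gg w] k

lemma differentiableAt_ph (k : Fin 3) {w : ℂ} (hw : w ∈ D) : DifferentiableAt ℂ (ph k) w := by
  have h1 := differentiableAt_gg hw
  have h2 := differentiableAt_hh hw
  unfold ph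
  fin_cases k
  · simp only [Fin.zero_eta, Matrix.cons_val_zero]
    fun_prop
  · simp only [Fin.mk_one, Matrix.cons_val_one, Matrix.cons_val_zero]
    fun_prop
  · simp only [Fin.reduceFinMk, Matrix.cons_val]
    fun_prop

lemma exists_prim : ∃ Φ : Fin 3 → ℂ → ℂ, ∀ k, ∀ z ∈ D, HasDerivAt (Φ k) (ph k z) z := by
  have : ∀ k : Fin 3, ∃ g : ℂ → ℂ, ∀ z ∈ D, HasDerivAt g (ph k z) z := fun k =>
    DifferentiableOn.isExactOn_ball fun w hw => (differentiableAt_ph k hw).differentiableWithinAt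
  choose Φ hΦ using this
  exact ⟨Φ, hΦ⟩

noncomputable def Φ : Fin 3 → ℂ → ℂ := exists_prim.choose
lemma hΦ (k : Fin 3) {z : ℂ} (hz : z ∈ D) : HasDerivAt (Φ k) (ph k z) z := exists_prim.choose_spec k z hz

/-- the immersion -/
noncomputable def X (z : ℂ) (k : Fin 3) : ℝ := (Φ k z).re

lemma isOpen_D : IsOpen D := Metric.isOpen_ball

lemma fderiv_X {z : ℂ} (hz : z ∈ D) (v : ℂ) (k : Fin 3) : fderiv ℝ X z v k = (ph k z * v).re := by
  have h : HasFDerivAt X (ContinuousLinearMap.pi fun k =>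
      Complex.reCLM.comp (((ContinuousLinearMap.toSpanSingleton ℂ (ph k z)).restrictScalars ℝ))) z := by
    rw [hasFDerivAt_pi]
    intro k
    have h1 := (hΦ k hz).hasFDerivAt.restrictScalars ℝ
    exact Complex.reCLM.hasFDerivAt.comp z h1
  rw [h.fderiv]
  simp [mul_comm]

lemma contDiffOn_X : ContDiffOn ℝ 2 X D := by
  rw [contDiffOn_pi]
  intro k
  have h1 : DifferentiableOn ℂ (Φ k) D := fun z hz => (hΦ k hz).differentiableAt.differentiableWithinAt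
  have h2 : ContDiffOn ℂ 2 (Φ k) D := h1.contDiffOn isOpen_D
  exact Complex.reCLM.contDiff.comp_contDiffOn (h2.restrict_scalars ℝ)

/-- components of the partial derivatives -/
lemma Xu {z : ℂ} (hz : z ∈ D) (k : Fin 3) : fderiv ℝ X z 1 k = (ph k z).re := by
  rw [fderiv_X hz, mul_one]
lemma Xv {z : ℂ} (hz : z ∈ D) (k : Fin 3) : fderiv ℝ X z I k = -(ph k z).im := by
  rw [fderiv_X hz]; simp

lemma ph_re0 (z : ℂ) : (ph 0 z).re = ((hh z).re * (1 - (gg z).re ^ 2 + (gg z).im ^ 2)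
    + (hh z).im * (2 * (gg z).re * (gg z).im)) / 2 := by
  simp [ph, pow_two]; ring
lemma ph_im0 (z : ℂ) : (ph 0 z).im = ((hh z).im * (1 - (gg z).re ^ 2 + (gg z).im ^ 2)
    - (hh z).re * (2 * (gg z).re * (gg z).im)) / 2 := by
  simp [ph, pow_two]; ring
lemma ph_re1 (z : ℂ) : (ph 1 z).re = -((hh z).im * (1 + (gg z).re ^ 2 - (gg z).im ^ 2)
    + (hh z).re * (2 * (gg z).re * (gg z).im)) / 2 := by
  simp [ph, pow_two]; ring
lemma ph_im1 (z : ℂ) : (ph 1 z).im = ((hh z).re * (1 + (gg z).re ^ 2 - (gg z).im ^ 2)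
    - (hh z).im * (2 * (gg z).re * (gg z).im)) / 2 := by
  simp [ph, pow_two]; ring
lemma ph_re2 (z : ℂ) : (ph 2 z).re = (hh z).re * (gg z).re - (hh z).im * (gg z).im := by
  simp [ph]
lemma ph_im2 (z : ℂ) : (ph 2 z).im = (hh z).re * (gg z).im + (hh z).im * (gg z).re := by
  simp [ph]

lemma conf1 {z : ℂ} (hz : z ∈ D) :
    ∑ i, (fderiv ℝ X z 1 i) ^ 2 = ∑ i, (fderiv ℝ X z Complex.I i) ^ 2 := by
  simp only [Xu hz, Xv hz, Fin.sum_univ_three, ph_re0, ph_re1, ph_re2, ph_im0, ph_im1, ph_im2]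
  ring

lemma conf2 {z : ℂ} (hz : z ∈ D) :
    ∑ i, fderiv ℝ X z 1 i * fderiv ℝ X z Complex.I i = 0 := by
  simp only [Xu hz, Xv hz, Fin.sum_univ_three, ph_re0, ph_re1, ph_re2, ph_im0, ph_im1, ph_im2]
  ring

/-- the conformal factor squared -/
lemma speed_sq {z : ℂ} (hz : z ∈ D) (v : ℂ) :
    ∑ i, (fderiv ℝ X z v i) ^ 2 = (‖hh z‖ * (1 + ‖gg z‖ ^ 2) / 2 * ‖v‖) ^ 2 := by
  have e : (‖hh z‖ * (1 + ‖gg z‖ ^ 2) / 2 * ‖v‖) ^ 2 =
      ‖hh z‖ ^ 2 * (1 + ‖gg z‖ ^ 2) ^ 2 / 4 * ‖v‖ ^ 2 := by ring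
  rw [e, ← Complex.normSq_eq_norm_sq, ← Complex.normSq_eq_norm_sq, ← Complex.normSq_eq_norm_sq]
  simp only [fderiv_X hz, Fin.sum_univ_three, Complex.mul_re, ph_re0, ph_re1, ph_re2, ph_im0, ph_im1, ph_im2,
    Complex.normSq_apply]
  ring

lemma factor_pos {z : ℂ} (hz : z ∈ D) : 0 < ‖hh z‖ * (1 + ‖gg z‖ ^ 2) / 2 := by
  have := norm_pos_iff.mpr (hh_ne hz)
  positivity

lemma Xu_ne {z : ℂ} (hz : z ∈ D) : fderiv ℝ X z 1 ≠ 0 := by
  intro h
  have h1 := speed_sq hz 1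
  rw [h] at h1
  simp only [Pi.zero_apply, norm_one, mul_one] at h1
  have h2 := factor_pos hz
  have h3 : 0 < (‖hh z‖ * (1 + ‖gg z‖ ^ 2) / 2) ^ 2 := by positivity
  rw [← h1] at h3
  simp at h3

lemma hol {k : Fin 3} : DifferentiableOn ℂ
    (fun z => ((fderiv ℝ X z 1 k : ℝ) : ℂ) - Complex.I * ((fderiv ℝ X z Complex.I k : ℝ) : ℂ)) D := by
  have h : ∀ z ∈ D, ((fderiv ℝ X z 1 k : ℝ) : ℂ) - Complex.I * ((fderiv ℝ X z Complex.I k : ℝ) : ℂ) = ph k z := by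
    intro z hz
    rw [Xu hz, Xv hz]
    apply Complex.ext <;> simp
  have h2 : DifferentiableOn ℂ (ph k) D := fun w hw => (differentiableAt_ph k hw).differentiableWithinAt
  exact h2.congr h

/-- stereographic projection -/
noncomputable def sig (ζ : ℂ) : Fin 3 → ℝ :=
  ![2 * ζ.re / (1 + (ζ.re ^ 2 + ζ.im ^ 2)), 2 * ζ.im / (1 + (ζ.re ^ 2 + ζ.im ^ 2)),
    (ζ.re ^ 2 + ζ.im ^ 2 - 1) / (1 + (ζ.re ^ 2 + ζ.im ^ 2))]

lemma sig_den (ζ : ℂ) : 0 < 1 + (ζ.re ^ 2 + ζ.im ^ 2) := by positivity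

lemma differentiable_sig : Differentiable ℝ sig := by
  rw [differentiable_pi]
  intro i
  have hre : Differentiable ℝ (fun ζ : ℂ => ζ.re) := Complex.reCLM.differentiable
  have him : Differentiable ℝ (fun ζ : ℂ => ζ.im) := Complex.imCLM.differentiable
  have hd : Differentiable ℝ (fun ζ : ℂ => 1 + (ζ.re ^ 2 + ζ.im ^ 2)) := by fun_prop
  have hi : Differentiable ℝ (fun ζ : ℂ => (1 + (ζ.re ^ 2 + ζ.im ^ 2))⁻¹) := fun ζ =>
    ((hasDerivAt_inv (sig_den ζ).ne').differentiableAt).comp ζ (hd ζ)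
  fin_cases i
  · simp only [sig, Fin.zero_eta, Matrix.cons_val_zero]
    have h : Differentiable ℝ (fun ζ : ℂ => 2 * ζ.re) := by fun_prop
    simp only [div_eq_mul_inv]
    exact h.fun_mul hi
  · simp only [sig, Fin.mk_one, Matrix.cons_val_one, Matrix.cons_val_zero]
    have h : Differentiable ℝ (fun ζ : ℂ => 2 * ζ.im) := by fun_prop
    simp only [div_eq_mul_inv]
    exact h.fun_mul hi
  · simp only [sig, Fin.reduceFinMk, Matrix.cons_val]
    have h : Differentiable ℝ (fun ζ : ℂ => ζ.re ^ 2 + ζ.im ^ 2 - 1) := by fun_prop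
    simp only [div_eq_mul_inv]
    exact h.fun_mul hi

lemma sig_inj {ζ ξ : ℂ} (h : sig ζ = sig ξ) : ζ = ξ := by
  have h0 := congrFun h 0
  have h1 := congrFun h 1
  have h2 := congrFun h 2
  simp only [sig, Matrix.cons_val_zero, Matrix.cons_val_one, Matrix.cons_val] at h0 h1 h2
  have a := sig_den ζ
  have b := sig_den ξ
  have e : 1 + (ζ.re ^ 2 + ζ.im ^ 2) = 1 + (ξ.re ^ 2 + ξ.im ^ 2) := by
    rw [div_eq_div_iff a.ne' b.ne'] at h2
    nlinarith
  rw [e] at h0 h1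
  rw [div_left_inj' b.ne'] at h0 h1
  exact Complex.ext (by linarith) (by linarith)

/-- the cross product -/
lemma cross_eq {z : ℂ} (hz : z ∈ D) (k : Fin 3) :
    crossProduct (fderiv ℝ X z 1) (fderiv ℝ X z Complex.I) k =
      (‖hh z‖ * (1 + ‖gg z‖ ^ 2) / 2) ^ 2 * sig (gg z) k := by
  have e1 : ‖gg z‖ ^ 2 = (gg z).re ^ 2 + (gg z).im ^ 2 := by
    rw [← Complex.normSq_eq_norm_sq, Complex.normSq_apply]; ring
  have e2 : ‖hh z‖ ^ 2 = (hh z).re ^ 2 + (hh z).im ^ 2 := by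
    rw [← Complex.normSq_eq_norm_sq, Complex.normSq_apply]; ring
  have e3 : (‖hh z‖ * (1 + ‖gg z‖ ^ 2) / 2) ^ 2 = ‖hh z‖ ^ 2 * (1 + ‖gg z‖ ^ 2) ^ 2 / 4 := by ring
  have hden := (sig_den (gg z)).ne'
  rw [e3, e1, e2, cross_apply]
  fin_cases k
  · simp only [Fin.zero_eta, Matrix.cons_val_zero, Xu hz, Xv hz, ph_re1, ph_re2, ph_im1, ph_im2, sig]
    field_simp
    ring
  · simp only [Fin.mk_one, Matrix.cons_val_one, Matrix.cons_val_zero, Xu hz, Xv hz, ph_re0, ph_re2, ph_im0, ph_im2, sig]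
    field_simp
    ring
  · simp only [Fin.reduceFinMk, Matrix.cons_val, Xu hz, Xv hz, ph_re0, ph_re1, ph_im0, ph_im1, sig]
    field_simp
    ring

lemma sig_norm (ζ : ℂ) : ∑ i, sig ζ i ^ 2 = 1 := by
  have hden := (sig_den ζ).ne'
  simp only [Fin.sum_univ_three, sig, Matrix.cons_val_zero, Matrix.cons_val_one, Matrix.cons_val]
  field_simp
  ring

lemma gauss_eq {z : ℂ} (hz : z ∈ D) :
    (Real.sqrt (∑ i, (crossProduct (fderiv ℝ X z 1) (fderiv ℝ X z Complex.I) i) ^ 2))⁻¹ •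
            crossProduct (fderiv ℝ X z 1) (fderiv ℝ X z Complex.I) = sig (gg z) := by
  set c := (‖hh z‖ * (1 + ‖gg z‖ ^ 2) / 2) ^ 2 with hc
  have hc0 : 0 < c := by
    have := factor_pos hz
    positivity
  have h1 : ∑ i, (crossProduct (fderiv ℝ X z 1) (fderiv ℝ X z Complex.I) i) ^ 2 = c ^ 2 := by
    simp only [cross_eq hz, ← hc, mul_pow]
    rw [← Finset.mul_sum, sig_norm, mul_one]
  rw [h1, Real.sqrt_sq hc0.le]
  funext k
  rw [Pi.smul_apply, cross_eq hz, smul_eq_mul, ← hc, ← mul_assoc, inv_mul_cancel₀ hc0.ne', one_mul]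

lemma complete (γ : ℝ → ℂ) (hγ : ContDiffOn ℝ 1 γ (Ico 0 1)) (hm : MapsTo γ (Ico 0 1) D)
    (hK : ∀ K : Set ℂ, IsCompact K → K ⊆ D → ∀ᶠ t in 𝓝[<] (1 : ℝ), γ t ∉ K) :
    ∫⁻ t in Set.Ioo (0 : ℝ) 1,
            ENNReal.ofReal (Real.sqrt (∑ i, (fderiv ℝ X (γ t) (deriv γ t) i) ^ 2)) = ⊤ := by
  refine complete_disc γ hγ hm hK _ (1 / 20) (by norm_num) fun t ht => ?_
  have hz := hm (Ioo_subset_Ico_self ht)
  rw [speed_sq hz, Real.sqrt_sq (mul_nonneg (factor_pos hz).le (norm_nonneg _))]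
  have h1 := factor_lower hz
  calc 1 / 20 * (‖deriv γ t‖ / (1 - ‖γ t‖ ^ 2)) = (1 / 20 * (1 / (1 - ‖γ t‖ ^ 2))) * ‖deriv γ t‖ := by ring
    _ ≤ _ := mul_le_mul_of_nonneg_right h1 (norm_nonneg _)

/-- the final counterexample to the flat point conjecture -/
theorem final :
    ¬ (∀ (U : Set ℂ) (X : ℂ → Fin 3 → ℝ),
      IsOpen U → IsConnected U → ContDiffOn ℝ 2 X U →
      (∀ z ∈ U, fderiv ℝ X z 1 ≠ 0 ∧
          ∑ i, (fderiv ℝ X z 1 i) ^ 2 = ∑ i, (fderiv ℝ X z Complex.I i) ^ 2 ∧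
          ∑ i, fderiv ℝ X z 1 i * fderiv ℝ X z Complex.I i = 0) →
      (∀ k : Fin 3, DifferentiableOn ℂ
          (fun z => ((fderiv ℝ X z 1 k : ℝ) : ℂ) - Complex.I * ((fderiv ℝ X z Complex.I k : ℝ) : ℂ)) U) →
      (∀ γ : ℝ → ℂ, ContDiffOn ℝ 1 γ (Set.Ico 0 1) → Set.MapsTo γ (Set.Ico 0 1) U →
          (∀ K : Set ℂ, IsCompact K → K ⊆ U → ∀ᶠ t in nhdsWithin (1 : ℝ) (Set.Iio 1), γ t ∉ K) →
          ∫⁻ t in Set.Ioo (0 : ℝ) 1,
            ENNReal.ofReal (Real.sqrt (∑ i, (fderiv ℝ X (γ t) (deriv γ t) i) ^ 2)) = ⊤) →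
      ∀ N : ℂ → Fin 3 → ℝ,
        (∀ z ∈ U, N z =
          (Real.sqrt (∑ i, (crossProduct (fderiv ℝ X z 1) (fderiv ℝ X z Complex.I) i) ^ 2))⁻¹ •
            crossProduct (fderiv ℝ X z 1) (fderiv ℝ X z Complex.I)) →
        (∃ z₁ ∈ U, ∃ z₂ ∈ U, N z₁ ≠ N z₂) →
        (∃ z₀ ∈ U, fderiv ℝ N z₀ = 0) →
        {v : Fin 3 → ℝ | ∑ i, v i ^ 2 = 1 ∧ ∀ z ∈ U, N z ≠ v}.encard ≤ 3) := by
  intro H
  have hN : ∀ z ∈ D, sig (gg z) =
      (Real.sqrt (∑ i, (crossProduct (fderiv ℝ X z 1) (fderiv ℝ X z Complex.I) i) ^ 2))⁻¹ •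
            crossProduct (fderiv ℝ X z 1) (fderiv ℝ X z Complex.I) := fun z hz => (gauss_eq hz).symm
  have h := H D X isOpen_D ⟨⟨0, zero_mem_D⟩, (convex_ball (0 : ℂ) 1).isPreconnected⟩ contDiffOn_X
    (fun z hz => ⟨Xu_ne hz, conf1 hz, conf2 hz⟩) (fun k => hol) complete (fun z => sig (gg z)) hN ?_ ?_
  · -- four omitted values
    have hsub : ({sig 0, sig 1, sig (-1), ![0, 0, 1]} : Set (Fin 3 → ℝ)) ⊆
        {v : Fin 3 → ℝ | ∑ i, v i ^ 2 = 1 ∧ ∀ z ∈ D, sig (gg z) ≠ v} := by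
      intro v hv
      simp only [Set.mem_insert_iff, Set.mem_singleton_iff] at hv
      rcases hv with rfl | rfl | rfl | rfl
      · exact ⟨sig_norm _, fun z hz h => gg_ne hz (sig_inj h)⟩
      · refine ⟨sig_norm _, fun z hz h => gg_sq_ne hz ?_⟩
        rw [sig_inj h]; ring
      · refine ⟨sig_norm _, fun z hz h => gg_sq_ne hz ?_⟩
        rw [sig_inj h]; ring
      · refine ⟨by simp [Fin.sum_univ_three], fun z hz h => ?_⟩
        have h2 := congrFun h 2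
        simp only [sig, Matrix.cons_val] at h2
        have hden := sig_den (gg z)
        rw [div_eq_one_iff_eq hden.ne'] at h2
        linarith
    have hcard : ({sig 0, sig 1, sig (-1), ![0, 0, 1]} : Set (Fin 3 → ℝ)).encard = 4 := by
      have n1 : sig 0 ≠ sig 1 := fun h => zero_ne_one (sig_inj h)
      have n2 : sig 0 ≠ sig (-1) := fun h => by
        have := sig_inj h
        norm_num at this
      have n3 : sig 1 ≠ sig (-1) := fun h => by
        have := sig_inj h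
        have := congrArg Complex.re this
        norm_num at this
      have ntop : ∀ ζ : ℂ, sig ζ ≠ ![0, 0, 1] := by
        intro ζ h
        have h2 := congrFun h 2
        simp only [sig, Matrix.cons_val] at h2
        have hden := sig_den ζ
        rw [div_eq_one_iff_eq hden.ne'] at h2
        linarith
      rw [Set.encard_insert_of_notMem, Set.encard_insert_of_notMem, Set.encard_insert_of_notMem,
        Set.encard_singleton]
      · norm_num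
      · simp only [Set.mem_singleton_iff]; exact ntop _
      · simp only [Set.mem_insert_iff, Set.mem_singleton_iff, not_or]; exact ⟨n3, ntop _⟩
      · simp only [Set.mem_insert_iff, Set.mem_singleton_iff, not_or]; exact ⟨n1, n2, ntop _⟩
    have h4 := Set.encard_le_encard hsub
    rw [hcard] at h4
    have h5 := h4.trans h
    norm_num at h5
  · obtain ⟨w₁, hw₁, w₂, hw₂, hne⟩ := gg_nonconst
    exact ⟨w₁, hw₁, w₂, hw₂, fun h => hne (sig_inj h)⟩
  · refine ⟨0, zero_mem_D, ?_⟩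
    have h1 : HasFDerivAt gg (0 : ℂ →L[ℝ] ℂ) 0 := by
      have := deriv_gg_zero.hasFDerivAt.restrictScalars ℝ
      refine this.congr_fderiv ?_
      ext
      simp
    have h2 := (differentiable_sig (gg 0)).hasFDerivAt.comp (0 : ℂ) h1
    rw [ContinuousLinearMap.comp_zero] at h2
    exact h2.fderiv

end Pool.Agent.H110R3.Flat
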