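import Mathlib

set_option autoImplicit false

open scoped ContDiff
open Real

namespace Pool.Agent.H110R3.Mu

/-- trigonometric polynomial curve -/
noncomputable def tc {n : ℕ} (F : Finset ℕ) (z : ℕ → Fin n → ℂ) (τ : ℝ) :
    EuclideanSpace ℝ (Fin n) :=
  WithLp.toLp 2 (fun j => ∑ k ∈ F, (z k j * Complex.exp (Complex.I * k * τ)).re)

lemma hasDerivAt_term (z : ℂ) (k : ℕ) (τ : ℝ) :
    HasDerivAt (fun τ : ℝ => (z * Complex.exp (Complex.I * k * τ)).re)
      ((z * (Complex.I * k) * Complex.exp (Complex.I * k * τ)).re) τ := by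
  have h1 : HasDerivAt (fun τ : ℝ => Complex.I * k * (τ : ℂ)) (Complex.I * k * 1) τ :=
    (Complex.ofRealCLM.hasDerivAt (x := τ)).const_mul (Complex.I * k)
  have h2 := (h1.cexp).const_mul z
  have h3 := Complex.reCLM.hasFDerivAt.comp_hasDerivAt τ h2
  refine (h3.congr_deriv ?_)
  simp only [Complex.reCLM_apply, mul_one]
  congr 1
  ring

lemma hasDerivAt_tc {n : ℕ} (F : Finset ℕ) (z : ℕ → Fin n → ℂ) (τ : ℝ) :
    HasDerivAt (tc F z) (tc F (fun k j => z k j * (Complex.I * k)) τ) τ := by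
  have h : HasDerivAt (fun τ : ℝ => (fun j => ∑ k ∈ F, (z k j * Complex.exp (Complex.I * k * τ)).re))
      (fun j => ∑ k ∈ F, (z k j * (Complex.I * k) * Complex.exp (Complex.I * k * τ)).re) τ := by
    rw [hasDerivAt_pi]
    intro j
    exact HasDerivAt.fun_sum fun k _ => hasDerivAt_term _ _ _
  exact (PiLp.continuousLinearEquiv 2 ℝ (fun _ : Fin n => ℝ)).symm.toContinuousLinearMap.hasFDerivAt.comp_hasDerivAt τ h

lemma iteratedDeriv_tc {n : ℕ} (F : Finset ℕ) (z : ℕ → Fin n → ℂ) (m : ℕ) :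
    iteratedDeriv m (tc F z) = tc F (fun k j => z k j * (Complex.I * k) ^ m) := by
  induction m with
  | zero => simp
  | succ m ih =>
    rw [iteratedDeriv_succ, ih]
    funext τ
    rw [(hasDerivAt_tc F _ τ).deriv]
    congr 1
    funext k j
    ring

lemma contDiff_tc {n : ℕ} (F : Finset ℕ) (z : ℕ → Fin n → ℂ) : ContDiff ℝ ∞ (tc F z) := by
  rw [contDiff_euclidean]
  intro j
  have : (fun x => tc F z x j) = fun τ : ℝ => ∑ k ∈ F, Complex.reCLM (z k j * Complex.exp (Complex.I * k * Complex.ofRealCLM τ)) := by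
    funext x
    simp [tc]
  rw [this]
  fun_prop

lemma periodic_tc {n : ℕ} (F : Finset ℕ) (z : ℕ → Fin n → ℂ) :
    Function.Periodic (tc F z) (2 * π) := by
  intro τ
  unfold tc
  congr 1
  funext j
  refine Finset.sum_congr rfl fun k _ => ?_
  congr 2
  have : Complex.I * k * ((τ + 2 * π : ℝ) : ℂ) = Complex.I * k * τ + k * (2 * π * Complex.I) := by
    push_cast; ring
  rw [this]
  exact Complex.exp_periodic.nat_mul k _

/-- bound on the norm -/
lemma norm_tc_le {n : ℕ} (F : Finset ℕ) (z : ℕ → Fin n → ℂ) (τ : ℝ) :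
    ‖tc F z τ‖ ≤ ∑ j, ∑ k ∈ F, ‖z k j‖ := by
  have h1 : ‖tc F z τ‖ ≤ ∑ j, ‖tc F z τ j‖ := by
    rw [EuclideanSpace.norm_eq]
    apply Real.sqrt_le_iff.mpr
    refine ⟨Finset.sum_nonneg fun _ _ => norm_nonneg _, ?_⟩
    exact Finset.sum_sq_le_sq_sum_of_nonneg fun _ _ => norm_nonneg _
  refine h1.trans (Finset.sum_le_sum fun j _ => ?_)
  refine (norm_sum_le _ _).trans (Finset.sum_le_sum fun k _ => ?_)
  refine (Complex.abs_re_le_norm _).trans ?_
  rw [norm_mul]
  have : ‖Complex.exp (Complex.I * k * τ)‖ = 1 := by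
    have : Complex.I * k * τ = ((k * τ : ℝ) : ℂ) * Complex.I := by push_cast; ring
    rw [this, Complex.norm_exp_ofReal_mul_I]
  rw [this, mul_one]

/-- criterion for linear independence -/
lemma linInd_of {n : ℕ} (v : Fin n → EuclideanSpace ℝ (Fin n))
    (h : ∀ w : EuclideanSpace ℝ (Fin n), (∀ k, inner ℝ w (v k) = 0) → w = 0) :
    LinearIndependent ℝ v := by
  apply linearIndependent_of_top_le_span_of_card_eq_finrank
  · rw [top_le_iff, ← Submodule.orthogonal_eq_bot_iff, Submodule.eq_bot_iff]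
    intro w hw
    apply h
    intro k
    rw [real_inner_comm]
    exact (Submodule.mem_orthogonal _ _).mp hw (v k) (Submodule.subset_span ⟨k, rfl⟩)
  · simp

lemma inner_tc {n : ℕ} (F : Finset ℕ) (z : ℕ → Fin n → ℂ) (τ : ℝ) (w : EuclideanSpace ℝ (Fin n)) :
    inner ℝ w (tc F z τ) =
      ∑ k ∈ F, ((∑ j, (w j : ℂ) * z k j) * Complex.exp (Complex.I * k * τ)).re := by
  rw [PiLp.inner_apply]
  have h1 : ∀ j, inner ℝ (w j) (tc F z τ j) =
      ∑ k ∈ F, ((w j : ℂ) * z k j * Complex.exp (Complex.I * k * τ)).re := by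
    intro j
    simp only [tc, RCLike.inner_apply, conj_trivial, Finset.sum_mul]
    refine Finset.sum_congr rfl fun k _ => ?_
    rw [mul_assoc (w j : ℂ), Complex.re_ofReal_mul, mul_comm]
  rw [Finset.sum_congr rfl fun j _ => h1 j, Finset.sum_comm]
  refine Finset.sum_congr rfl fun k _ => ?_
  rw [Finset.sum_mul, Complex.re_sum]

open Polynomial in
/-- if all the derivatives of order `1, …, n` of `⟨w, γ⟩` vanish at `t` then so does
`P(∂) ⟨w, γ⟩` for each polynomial `P` of degree at most `n` without constant term. -/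
lemma poly_apply {n : ℕ} (F : Finset ℕ) (z : ℕ → Fin n → ℂ) (t : ℝ)
    (w : EuclideanSpace ℝ (Fin n))
    (h : ∀ k : Fin n, inner ℝ w (iteratedDeriv (k + 1) (tc F z) t) = 0)
    (P : ℝ[X]) (hP0 : P.coeff 0 = 0) (hPn : P.natDegree ≤ n) :
    ∑ k ∈ F, ((∑ j, (w j : ℂ) * z k j) * aeval (Complex.I * k : ℂ) P *
      Complex.exp (Complex.I * k * t)).re = 0 := by
  have h2 : ∀ m ∈ Finset.range (P.natDegree + 1), P.coeff m * ∑ k ∈ F, ((∑ j, (w j : ℂ) * z k j) * (Complex.I * k : ℂ) ^ m *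
      Complex.exp (Complex.I * k * t)).re = 0 := by
    intro m hm
    rcases Nat.eq_zero_or_pos m with rfl | hpos
    · rw [hP0, zero_mul]
    · have hmn : m - 1 < n := by
        have := Finset.mem_range.mp hm
        omega
      have h3 := h ⟨m - 1, hmn⟩
      simp only [Nat.sub_add_cancel hpos] at h3
      rw [iteratedDeriv_tc, inner_tc] at h3
      have h4 : ∀ k, (∑ j, (w j : ℂ) * (z k j * (Complex.I * k) ^ m)) = (∑ j, (w j : ℂ) * z k j) * (Complex.I * k : ℂ) ^ m := by
        intro k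
        rw [Finset.sum_mul]
        exact Finset.sum_congr rfl fun j _ => by ring
      simp only [h4] at h3
      rw [h3, mul_zero]
  have h5 := Finset.sum_eq_zero h2
  rw [← h5]
  simp only [Finset.mul_sum]
  rw [Finset.sum_comm]
  refine Finset.sum_congr rfl fun k _ => ?_
  rw [aeval_eq_sum_range, Finset.mul_sum, Finset.sum_mul, Complex.re_sum]
  refine Finset.sum_congr rfl fun m _ => ?_
  rw [← Complex.re_ofReal_mul]
  congr 1
  rw [Complex.real_smul]
  ring

end Pool.Agent.H110R3.Mu
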