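import Mathlib

set_option autoImplicit false

open scoped ContDiff
open Real

namespace Pool.Agent.H110R3.Mu

/-- `γ` is a smooth closed curve in `ℝⁿ`, that is a smooth map from `S¹ = ℝ/2πℤ` to `ℝⁿ`. -/
def IsClosedCurve {n : ℕ} (γ : ℝ → EuclideanSpace ℝ (Fin n)) : Prop :=
  ContDiff ℝ ∞ γ ∧ Function.Periodic γ (2 * π)

/-- The curve `γ` in `ℝⁿ` is nondegenerate: at every point the derivatives
`γ'(t), γ''(t), …, γ⁽ⁿ⁾(t)` are linearly independent. -/
def IsNondegenerate {n : ℕ} (γ : ℝ → EuclideanSpace ℝ (Fin n)) : Prop :=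
  ∀ t, LinearIndependent ℝ (fun k : Fin n => iteratedDeriv (k + 1) γ t)

/-- The plane unit circle `c_m(t) = (cos mt, sin mt, 0, …, 0)` of `ℝⁿ`, traversed `m` times. -/
noncomputable def circ (n m : ℕ) (t : ℝ) : EuclideanSpace ℝ (Fin n) :=
  WithLp.toLp 2 (fun j => if (j : ℕ) = 0 then cos (m * t) else if (j : ℕ) = 1 then sin (m * t) else 0)

/-- Every `C^∞` neighbourhood of the `m` times traversed circle `c_m` contains a nondegenerate
closed curve of `ℝⁿ`. (The sets of closed curves `γ` with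
`sup_t ‖γ⁽ᵏ⁾(t) - c_m⁽ᵏ⁾(t)‖ < ε` for all `k ≤ r` form a neighbourhood base of `c_m`.) -/
def Perturbable (n m : ℕ) : Prop :=
  ∀ (r : ℕ) (ε : ℝ), 0 < ε → ∃ γ : ℝ → EuclideanSpace ℝ (Fin n),
    IsClosedCurve γ ∧ IsNondegenerate γ ∧
      ∀ k ≤ r, ∀ t, ‖iteratedDeriv k γ t - iteratedDeriv k (circ n m) t‖ < ε

end Pool.Agent.H110R3.Mu
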