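import Pool.Agent.H110R3.Mu1
import Pool.Agent.H110R3.MuDefs

set_option autoImplicit false

open scoped ContDiff
open Real Polynomial

namespace Pool.Agent.H110R3.Mu

/-- the polynomial `X ∏ (X² + b²)` -/
noncomputable def PB (B : Finset ℕ) : ℝ[X] := X * ∏ b ∈ B, (X ^ 2 + C ((b : ℝ) ^ 2))

lemma PB_coeff (B : Finset ℕ) : (PB B).coeff 0 = 0 := by simp [PB]

lemma PB_natDegree (B : Finset ℕ) : (PB B).natDegree ≤ 2 * B.card + 1 := by
  unfold PB
  refine (natDegree_mul_le).trans ?_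
  have h1 : (∏ b ∈ B, (X ^ 2 + C ((b : ℝ) ^ 2)) : ℝ[X]).natDegree ≤ ∑ b ∈ B, 2 := by
    refine (natDegree_prod_le _ _).trans (Finset.sum_le_sum fun b _ => ?_)
    refine (natDegree_add_le _ _).trans ?_
    simp
  have h2 : (X : ℝ[X]).natDegree ≤ 1 := natDegree_X_le
  rw [Finset.sum_const, smul_eq_mul] at h1
  omega

lemma aeval_PB (B : Finset ℕ) (k : ℕ) : aeval (Complex.I * k : ℂ) (PB B) =
    Complex.I * k * ((∏ b ∈ B, ((b : ℝ) ^ 2 - (k : ℝ) ^ 2) : ℝ) : ℂ) := by
  unfold PB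
  rw [map_mul, aeval_X, map_prod]
  push_cast
  congr 1
  refine Finset.prod_congr rfl fun b _ => ?_
  simp only [map_add, map_pow, aeval_X, aeval_C]
  rw [mul_pow, Complex.I_sq]
  simp
  ring

lemma prod_ne (B : Finset ℕ) (k : ℕ) (hk : k ∉ B) : (∏ b ∈ B, ((b : ℝ) ^ 2 - (k : ℝ) ^ 2) : ℝ) ≠ 0 := by
  rw [Finset.prod_ne_zero_iff]
  intro b hb h
  have h1 : ((b : ℝ)) ^ 2 = (k : ℝ) ^ 2 := by linarith
  have h2 : b ^ 2 = k ^ 2 := by exact_mod_cast h1
  have h3 : b = k := by
    exact Nat.pow_left_injective (n := 2) (by norm_num) h2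
  exact hk (h3 ▸ hb)

lemma prod_eq (B : Finset ℕ) (k : ℕ) (hk : k ∈ B) : (∏ b ∈ B, ((b : ℝ) ^ 2 - (k : ℝ) ^ 2) : ℝ) = 0 :=
  Finset.prod_eq_zero hk (by ring)

/-- extraction of one frequency -/
lemma extract {n : ℕ} (F : Finset ℕ) (z : ℕ → Fin n → ℂ) (t : ℝ)
    (w : EuclideanSpace ℝ (Fin n))
    (h : ∀ k : Fin n, inner ℝ w (iteratedDeriv (k + 1) (tc F z) t) = 0)
    (B : Finset ℕ) (a : ℕ) (haF : a ∈ F) (haB : a ∉ B) (ha0 : a ≠ 0)
    (hk : ∀ k ∈ F, k ≠ a → (k ∈ B ∨ ∑ j, (w j : ℂ) * z k j = 0))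
    (hn : 2 * B.card + 2 ≤ n) :
    ∑ j, (w j : ℂ) * z a j = 0 := by
  set Z := ∑ j, (w j : ℂ) * z a j with hZ
  set ρ := (∏ b ∈ B, ((b : ℝ) ^ 2 - (a : ℝ) ^ 2) : ℝ) with hρ
  have hρ0 : ρ ≠ 0 := prod_ne B a haB
  have ha0' : (a : ℝ) ≠ 0 := by exact_mod_cast ha0
  have h1 := poly_apply F z t w h (PB B) (PB_coeff B) ((PB_natDegree B).trans (by omega))
  have h2 := poly_apply F z t w h (X * PB B) (by simp)
    ((natDegree_mul_le).trans (by
      have := PB_natDegree B
      have h2 : (X : ℝ[X]).natDegree ≤ 1 := natDegree_X_le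
      omega))
  rw [Finset.sum_eq_single a] at h1 h2
  · rw [aeval_PB, ← hZ, ← hρ] at h1
    rw [map_mul, aeval_X, aeval_PB, ← hZ, ← hρ] at h2
    set u := Z * Complex.exp (Complex.I * a * t) with hu
    have e1 : Z * (Complex.I * a * (ρ : ℂ)) * Complex.exp (Complex.I * a * t) =
        ((a * ρ : ℝ) : ℂ) * (Complex.I * u) := by rw [hu]; push_cast; ring
    have e2 : Z * (Complex.I * a * (Complex.I * a * (ρ : ℂ))) * Complex.exp (Complex.I * a * t) =
        ((-(a * a * ρ) : ℝ) : ℂ) * u := by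
      rw [hu]; push_cast
      linear_combination (Z * a * a * ρ * Complex.exp (Complex.I * a * t)) * Complex.I_sq
    rw [e1, Complex.re_ofReal_mul] at h1
    rw [e2, Complex.re_ofReal_mul] at h2
    have h3 : (Complex.I * u).re = 0 := by
      rcases mul_eq_zero.mp h1 with h | h
      · exact absurd h (mul_ne_zero ha0' hρ0)
      · exact h
    have h4 : u.re = 0 := by
      rcases mul_eq_zero.mp h2 with h | h
      · exact absurd (neg_eq_zero.mp h) (mul_ne_zero (mul_ne_zero ha0' ha0') hρ0)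
      · exact h
    have h5 : u.im = 0 := by
      simp at h3
      exact h3
    have h6 : u = 0 := Complex.ext h4 h5
    rcases mul_eq_zero.mp h6 with h | h
    · exact h
    · exact absurd h (Complex.exp_ne_zero _)
  · intro k hkF hka
    rcases hk k hkF hka with h | h
    · rw [map_mul, aeval_PB, prod_eq B k h]; simp
    · rw [h]; simp
  · intro h; exact absurd haF h
  · intro k hkF hka
    rcases hk k hkF hka with h | h
    · rw [aeval_PB, prod_eq B k h]; simp
    · rw [h]; simp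
  · intro h; exact absurd haF h

lemma tc_congr {n : ℕ} (F : Finset ℕ) (z z' : ℕ → Fin n → ℂ) (h : ∀ k ∈ F, z k = z' k) :
    tc F z = tc F z' := by
  funext τ
  unfold tc
  congr 1
  funext j
  exact Finset.sum_congr rfl fun k hk => by rw [h k hk]

lemma tc_sub {n : ℕ} (F : Finset ℕ) (z z' : ℕ → Fin n → ℂ) (τ : ℝ) :
    tc F z τ - tc F z' τ = tc F (fun k j => z k j - z' k j) τ := by
  ext j
  simp only [tc, PiLp.sub_apply, ← Finset.sum_sub_distrib]
  refine Finset.sum_congr rfl fun k _ => ?_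
  rw [sub_mul, Complex.sub_re]

/-- coefficients of the circle -/
noncomputable def zc (n : ℕ) (k : ℕ) (j : Fin n) : ℂ :=
  if k = 1 then (if (j : ℕ) = 0 then 1 else if (j : ℕ) = 1 then -Complex.I else 0) else 0

lemma circ_eq (n : ℕ) (F : Finset ℕ) (hF : 1 ∈ F) : circ n 1 = tc F (zc n) := by
  funext τ
  ext j
  simp only [circ, tc]
  rw [Finset.sum_eq_single 1]
  · unfold zc
    rw [if_pos rfl]
    split_ifs with h0 h1
    · simp [Complex.exp_re]
    · simp [Complex.exp_im]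
    · simp
  · intro k _ hk
    simp [zc, hk]
  · intro h; exact absurd hF h

lemma perturb_of {n : ℕ} (F : Finset ℕ) (z : ℕ → Fin n → ℂ) (hF : 1 ∈ F)
    (hz : ∀ k ∈ F, ∀ j : Fin n, (j : ℕ) < 2 → z k j = zc n k j)
    (hnd : ∀ (t : ℝ) (w : EuclideanSpace ℝ (Fin n)),
      (∀ k : Fin n, inner ℝ w (iteratedDeriv (k + 1) (tc F z) t) = 0) → w = 0) :
    Perturbable n 1 := by
  intro r ε hε
  set C := ∑ m ∈ Finset.range (r + 1), ∑ j : Fin n, ∑ k ∈ F, ‖z k j * (Complex.I * k) ^ m‖ with hC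
  have hC0 : 0 ≤ C := by positivity
  set δ := ε / (C + 1) with hδ
  have hδ0 : 0 < δ := by positivity
  set s : Fin n → ℝ := fun j => if (j : ℕ) < 2 then 1 else δ with hs
  have hs0 : ∀ j, s j ≠ 0 := by
    intro j
    simp only [hs]
    split_ifs
    · exact one_ne_zero
    · exact hδ0.ne'
  refine ⟨tc F (fun k j => s j * z k j), ⟨contDiff_tc _ _, periodic_tc _ _⟩, ?_, ?_⟩
  · intro t
    apply linInd_of
    intro w hw
    have h1 := hnd t (WithLp.toLp 2 (fun j => w j * s j)) ?_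
    · ext j
      have h2 := congrArg (fun v : EuclideanSpace ℝ (Fin n) => v j) h1
      simp only [PiLp.zero_apply] at h2 ⊢
      exact (mul_eq_zero.mp h2).resolve_right (hs0 j)
    · intro k
      have h2 := hw k
      rw [iteratedDeriv_tc, inner_tc] at h2 ⊢
      rw [← h2]
      refine Finset.sum_congr rfl fun k _ => ?_
      congr 2
      refine Finset.sum_congr rfl fun j _ => ?_
      push_cast
      ring
  · intro m hm t
    rw [circ_eq n F hF, iteratedDeriv_tc, iteratedDeriv_tc, tc_sub]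
    refine (norm_tc_le _ _ _).trans_lt ?_
    have h1 : ∑ j : Fin n, ∑ k ∈ F, ‖(s j * z k j * (Complex.I * k) ^ m - zc n k j * (Complex.I * k) ^ m : ℂ)‖
        ≤ ∑ j : Fin n, ∑ k ∈ F, δ * ‖z k j * (Complex.I * k) ^ m‖ := by
      refine Finset.sum_le_sum fun j _ => Finset.sum_le_sum fun k hk => ?_
      by_cases hj : (j : ℕ) < 2
      · rw [← hz k hk j hj]
        simp only [hs, hj, if_true]
        simp
        positivity
      · have : zc n k j = 0 := by
          unfold zc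
          split_ifs <;> first | rfl | omega
        rw [this]
        simp only [hs, hj, if_false, zero_mul, sub_zero]
        rw [mul_assoc, norm_mul]
        simp [abs_of_pos hδ0]
    refine h1.trans_lt ?_
    simp only [← Finset.mul_sum]
    have h2 : ∑ j : Fin n, ∑ k ∈ F, ‖z k j * (Complex.I * k) ^ m‖ ≤ C := by
      rw [hC]
      exact Finset.single_le_sum (f := fun m => ∑ j : Fin n, ∑ k ∈ F, ‖z k j * (Complex.I * k) ^ m‖)
        (fun _ _ => by positivity) (Finset.mem_range.mpr (by omega))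
    calc δ * ∑ j : Fin n, ∑ k ∈ F, ‖z k j * (Complex.I * k) ^ m‖ ≤ δ * C :=
          mul_le_mul_of_nonneg_left h2 hδ0.le
      _ < δ * (C + 1) := by nlinarith
      _ = ε := by rw [hδ]; field_simp

end Pool.Agent.H110R3.Mu
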