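import Pool.Agent.H110R3.Mu2

set_option autoImplicit false

open scoped ContDiff
open Real Polynomial

namespace Pool.Agent.H110R3.Mu

lemma sum_pick {n : ℕ} (w : Fin n → ℂ) (a : ℕ) (ha : a < n) (c : ℂ) :
    ∑ j : Fin n, w j * (if (j : ℕ) = a then c else 0) = w ⟨a, ha⟩ * c := by
  rw [Finset.sum_eq_single ⟨a, ha⟩]
  · simp
  · intro j _ hj
    have : (j : ℕ) ≠ a := fun h => hj (Fin.ext h)
    simp [this]
  · intro h; exact absurd (Finset.mem_univ _) h

lemma two_pick {n : ℕ} (w : EuclideanSpace ℝ (Fin n)) (a b : ℕ) (ha : a < n) (hb : b < n) (z : Fin n → ℂ)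
    (hz : ∀ j : Fin n, z j = (if (j : ℕ) = a then 1 else 0) + (if (j : ℕ) = b then -Complex.I else 0))
    (h : ∑ j, (w j : ℂ) * z j = 0) : w ⟨a, ha⟩ = 0 ∧ w ⟨b, hb⟩ = 0 := by
  simp only [hz, mul_add, Finset.sum_add_distrib] at h
  rw [sum_pick (fun j => (w j : ℂ)) a ha, sum_pick (fun j => (w j : ℂ)) b hb] at h
  have h1 := congrArg Complex.re h
  have h2 := congrArg Complex.im h
  simp at h1 h2
  exact ⟨h1, h2⟩

/-- coefficients for even `n` -/
noncomputable def ze (n : ℕ) (k : ℕ) (j : Fin n) : ℂ :=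
  (if (j : ℕ) = 2 * k - 2 then 1 else 0) + (if (j : ℕ) = 2 * k - 1 then -Complex.I else 0)

lemma perturb_even (l : ℕ) (hl : 1 ≤ l) : Perturbable (2 * l) 1 := by
  apply perturb_of (Finset.Icc 1 l) (ze (2 * l)) (by simp [hl])
  · intro k hk j hj
    rw [Finset.mem_Icc] at hk
    unfold ze zc
    by_cases hk1 : k = 1
    · subst hk1
      rw [if_pos rfl]
      interval_cases h : (j : ℕ) <;> simp
    · rw [if_neg hk1]
      have h1 : (j : ℕ) ≠ 2 * k - 2 := by omega
      have h2 : (j : ℕ) ≠ 2 * k - 1 := by omega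
      simp [h1, h2]
  · intro t w hw
    have key : ∀ a ∈ Finset.Icc 1 l, ∑ j, (w j : ℂ) * ze (2 * l) a j = 0 := by
      intro a ha
      have ha' := Finset.mem_Icc.mp ha
      apply extract (Finset.Icc 1 l) (ze (2 * l)) t w hw ((Finset.Icc 1 l).erase a) a ha
        (Finset.notMem_erase _ _) (by omega)
      · intro k hk hka
        left
        exact Finset.mem_erase.mpr ⟨hka, hk⟩
      · rw [Finset.card_erase_of_mem ha]
        simp
        omega
    ext j
    have hj := j.2
    have ha : (j : ℕ) / 2 + 1 ∈ Finset.Icc 1 l := by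
      rw [Finset.mem_Icc]; omega
    have h1 := two_pick w (2 * ((j : ℕ) / 2 + 1) - 2) (2 * ((j : ℕ) / 2 + 1) - 1) (by omega) (by omega)
      _ (fun j => rfl) (key _ ha)
    rcases Nat.even_or_odd (j : ℕ) with he | ho
    · have : j = ⟨2 * ((j : ℕ) / 2 + 1) - 2, by omega⟩ := by
        ext
        simp only
        rcases he with ⟨q, hq⟩
        omega
      rw [this]
      exact h1.1
    · have : j = ⟨2 * ((j : ℕ) / 2 + 1) - 1, by omega⟩ := by
        ext
        simp only
        rcases ho with ⟨q, hq⟩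
        omega
      rw [this]
      exact h1.2

/-- Fourier coefficients of the locally convex spherical curve
`(cos 2τ - sin 2τ cos 8τ, sin 2τ + cos 2τ cos 8τ, sin 8τ)`. -/
noncomputable def gg (k : ℕ) (j : ℕ) : ℂ :=
  if j = 2 then (if k = 2 then 1 else if k = 6 then -Complex.I / 2 else if k = 10 then Complex.I / 2 else 0)
  else if j = 3 then (if k = 2 then -Complex.I else if k = 6 then 1 / 2 else if k = 10 then 1 / 2 else 0)
  else if j = 4 then (if k = 8 then -Complex.I else 0) else 0

/-- the excluded frequencies -/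
def BB (l : ℕ) : Finset ℕ := insert 1 (Finset.Icc 11 (10 + l))

def GG : Finset ℕ := {2, 6, 8, 10}

noncomputable def zo (l : ℕ) (n : ℕ) (k : ℕ) (j : Fin n) : ℂ :=
  if (j : ℕ) < 2 then zc n k j else
  if (j : ℕ) < 5 then gg k j / aeval (Complex.I * k : ℂ) (PB (BB l)) else
  (if (j : ℕ) = 2 * k - 17 then 1 else 0) + (if (j : ℕ) = 2 * k - 16 then -Complex.I else 0)

lemma BB_card (l : ℕ) : (BB l).card = l + 1 := by
  unfold BB
  rw [Finset.card_insert_of_notMem]
  · simp
  · simp

lemma GG_disj (l k : ℕ) (hk : k ∈ GG) : k ∉ BB l := by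
  simp only [GG, Finset.mem_insert, Finset.mem_singleton] at hk
  simp only [BB, Finset.mem_insert, Finset.mem_Icc]
  omega

lemma aeval_ne (l k : ℕ) (hk : k ∈ GG) : aeval (Complex.I * k : ℂ) (PB (BB l)) ≠ 0 := by
  rw [aeval_PB]
  have h1 := prod_ne (BB l) k (GG_disj l k hk)
  have h2 : (k : ℂ) ≠ 0 := by
    simp only [GG, Finset.mem_insert, Finset.mem_singleton] at hk
    have : k ≠ 0 := by omega
    exact_mod_cast this
  exact mul_ne_zero (mul_ne_zero Complex.I_ne_zero h2) (by exact_mod_cast h1)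

lemma det_pos (c s : ℝ) (h : c ^ 2 + s ^ 2 = 1) :
    0 < 512 + 128 * s + 8 * s * (1 + c ^ 2) - 96 * s ^ 2 := by
  nlinarith [sq_nonneg (s + 1), sq_nonneg (s - 1), sq_nonneg (c * s), sq_nonneg c, sq_nonneg s]

/-- the linear algebra of the locally convex spherical curve -/
lemma sph (w2 w3 w4 C S c s : ℝ) (hC : C ^ 2 + S ^ 2 = 1) (h : c ^ 2 + s ^ 2 = 1)
    (h0 : w2 * (C - S * c) + w3 * (S + C * c) + w4 * s = 0)
    (h1 : w2 * (-2 * S - 2 * C * c + 8 * S * s) + w3 * (2 * C - 2 * S * c - 8 * C * s) + w4 * (8 * c) = 0)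
    (h2 : w2 * (-4 * C + 4 * S * c + 16 * C * s + 16 * C * s + 64 * S * c)
      + w3 * (-4 * S - 4 * C * c + 16 * S * s + 16 * S * s - 64 * C * c) - w4 * (64 * s) = 0) :
    w2 = 0 ∧ w3 = 0 ∧ w4 = 0 := by
  set p := w2 * C + w3 * S with hp
  set q := -w2 * S + w3 * C with hq
  have e0 : p + c * q + s * w4 = 0 := by rw [hp, hq]; linear_combination h0
  have e1 : (-2 * c) * p + (2 - 8 * s) * q + 8 * c * w4 = 0 := by
    rw [hp, hq]; linear_combination h1
  have e2 : (-4 + 32 * s) * p + (-68 * c) * q + (-64 * s) * w4 = 0 := by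
    rw [hp, hq]; linear_combination h2
  have hD := det_pos c s h
  set D := 512 + 128 * s + 8 * s * (1 + c ^ 2) - 96 * s ^ 2 with hDdef
  have raw : (2 - 8 * s) * (-64 * s) - 8 * c * (-68 * c) - c * ((-2 * c) * (-64 * s) - 8 * c * (-4 + 32 * s))
      + s * ((-2 * c) * (-68 * c) - (2 - 8 * s) * (-4 + 32 * s)) = D := by
    rw [hDdef]; linear_combination (512 + 256 * s) * h
  have hp0 : p = 0 := by
    have : D * p = 0 := by
      rw [← raw]
      linear_combination ((2 - 8 * s) * (-64 * s) - 8 * c * (-68 * c)) * e0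
        - (c * (-64 * s) - s * (-68 * c)) * e1 + (c * (8 * c) - s * (2 - 8 * s)) * e2
    exact (mul_eq_zero.mp this).resolve_left hD.ne'
  have hq0 : q = 0 := by
    have : D * q = 0 := by
      rw [← raw]
      linear_combination -((-2 * c) * (-64 * s) - 8 * c * (-4 + 32 * s)) * e0
        + ((-64 * s) - s * (-4 + 32 * s)) * e1 - (8 * c - s * (-2 * c)) * e2
    exact (mul_eq_zero.mp this).resolve_left hD.ne'
  have hw4 : w4 = 0 := by
    have : D * w4 = 0 := by
      rw [← raw]
      linear_combination ((-2 * c) * (-68 * c) - (2 - 8 * s) * (-4 + 32 * s)) * e0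
        - ((-68 * c) - c * (-4 + 32 * s)) * e1 + ((2 - 8 * s) - c * (-2 * c)) * e2
    exact (mul_eq_zero.mp this).resolve_left hD.ne'
  refine ⟨?_, ?_, hw4⟩
  · have : w2 = p * C - q * S := by rw [hp, hq]; linear_combination (-w2) * hC
    rw [this, hp0, hq0]; ring
  · have : w3 = p * S + q * C := by rw [hp, hq]; linear_combination (-w3) * hC
    rw [this, hp0, hq0]; ring

lemma exp_re (k : ℕ) (t : ℝ) : (Complex.exp (Complex.I * k * t)).re = cos (k * t) := by
  have : Complex.I * k * t = ((k * t : ℝ) : ℂ) * Complex.I := by push_cast; ring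
  rw [this, Complex.exp_ofReal_mul_I_re]

lemma exp_im (k : ℕ) (t : ℝ) : (Complex.exp (Complex.I * k * t)).im = sin (k * t) := by
  have : Complex.I * k * t = ((k * t : ℝ) : ℂ) * Complex.I := by push_cast; ring
  rw [this, Complex.exp_ofReal_mul_I_im]

lemma Zo_G (l : ℕ) (n : ℕ) (hn : n = 2 * l + 5) (w : EuclideanSpace ℝ (Fin n)) (k : ℕ) (hk : k ∈ GG) :
    (∑ j, (w j : ℂ) * zo l n k j) * aeval (Complex.I * k : ℂ) (PB (BB l)) =
      (w ⟨2, by omega⟩ : ℂ) * gg k 2 + (w ⟨3, by omega⟩ : ℂ) * gg k 3 + (w ⟨4, by omega⟩ : ℂ) * gg k 4 := by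
  have hne := aeval_ne l k hk
  have hz : ∀ j : Fin n, zo l n k j = ((if (j : ℕ) = 2 then gg k 2 / aeval (Complex.I * k : ℂ) (PB (BB l)) else 0)
      + (if (j : ℕ) = 3 then gg k 3 / aeval (Complex.I * k : ℂ) (PB (BB l)) else 0))
      + (if (j : ℕ) = 4 then gg k 4 / aeval (Complex.I * k : ℂ) (PB (BB l)) else 0) := by
    intro j
    simp only [GG, Finset.mem_insert, Finset.mem_singleton] at hk
    unfold zo
    by_cases h1 : (j : ℕ) < 2
    · rw [if_pos h1, if_neg (by omega), if_neg (by omega), if_neg (by omega)]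
      unfold zc
      rw [if_neg (by omega)]
      simp
    · rw [if_neg h1]
      by_cases h2 : (j : ℕ) < 5
      · rw [if_pos h2]
        have h3 : (j : ℕ) = 2 ∨ (j : ℕ) = 3 ∨ (j : ℕ) = 4 := by omega
        rcases h3 with h3 | h3 | h3 <;> simp [h3]
      · rw [if_neg h2, if_neg (by omega), if_neg (by omega), if_neg (by omega),
          if_neg (by omega), if_neg (by omega)]
        simp
  simp only [hz, mul_add, Finset.sum_add_distrib]
  rw [sum_pick (fun j => (w j : ℂ)) 2 (by omega), sum_pick (fun j => (w j : ℂ)) 3 (by omega),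
    sum_pick (fun j => (w j : ℂ)) 4 (by omega)]
  field_simp

lemma w234 (l : ℕ) (n : ℕ) (hn : n = 2 * l + 5) (t : ℝ) (w : EuclideanSpace ℝ (Fin n))
    (hw : ∀ k : Fin n, inner ℝ w (iteratedDeriv (k + 1) (tc (BB l ∪ GG) (zo l n)) t) = 0) :
    w ⟨2, by omega⟩ = 0 ∧ w ⟨3, by omega⟩ = 0 ∧ w ⟨4, by omega⟩ = 0 := by
  have hdisj : Disjoint (BB l) GG := by
    rw [Finset.disjoint_right]
    exact fun k hk => GG_disj l k hk
  have main : ∀ i : ℕ, i ≤ 2 → ∑ k ∈ GG, (((w ⟨2, by omega⟩ : ℂ) * gg k 2 + (w ⟨3, by omega⟩ : ℂ) * gg k 3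
      + (w ⟨4, by omega⟩ : ℂ) * gg k 4) * (Complex.I * k) ^ i * Complex.exp (Complex.I * k * t)).re = 0 := by
    intro i hi
    have h1 := poly_apply (BB l ∪ GG) (zo l n) t w hw (X ^ i * PB (BB l)) (by
        rw [mul_coeff_zero, PB_coeff, mul_zero]) ((natDegree_mul_le).trans (by
        have := PB_natDegree (BB l)
        rw [BB_card] at this
        have h2 : (X ^ i : ℝ[X]).natDegree ≤ i := natDegree_X_pow_le i
        omega))
    rw [Finset.sum_union hdisj, Finset.sum_eq_zero (s := BB l), zero_add] at h1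
    · rw [← h1]
      refine Finset.sum_congr rfl fun k hk => ?_
      rw [← Zo_G l n hn w k hk, map_mul, map_pow, aeval_X]
      congr 1
      ring
    · intro k hk
      rw [map_mul, aeval_PB, prod_eq _ k hk]
      simp
  have h0 := main 0 (by norm_num)
  have h1 := main 1 (by norm_num)
  have h2 := main 2 (by norm_num)
  set w2 := w ⟨2, by omega⟩ with hw2
  set w3 := w ⟨3, by omega⟩ with hw3
  set w4 := w ⟨4, by omega⟩ with hw4
  have hC : cos (2 * t) ^ 2 + sin (2 * t) ^ 2 = 1 := by rw [add_comm]; exact sin_sq_add_cos_sq _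
  have hc : cos (8 * t) ^ 2 + sin (8 * t) ^ 2 = 1 := by rw [add_comm]; exact sin_sq_add_cos_sq _
  have c6 : cos (6 * t) = cos (8 * t) * cos (2 * t) + sin (8 * t) * sin (2 * t) := by
    rw [show 6 * t = 8 * t - 2 * t by ring, cos_sub]
  have s6 : sin (6 * t) = sin (8 * t) * cos (2 * t) - cos (8 * t) * sin (2 * t) := by
    rw [show 6 * t = 8 * t - 2 * t by ring, sin_sub]
  have c10 : cos (10 * t) = cos (8 * t) * cos (2 * t) - sin (8 * t) * sin (2 * t) := by
    rw [show 10 * t = 8 * t + 2 * t by ring, cos_add]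
  have s10 : sin (10 * t) = sin (8 * t) * cos (2 * t) + cos (8 * t) * sin (2 * t) := by
    rw [show 10 * t = 8 * t + 2 * t by ring, sin_add]
  have r2 := exp_re 2 t
  have r6 := exp_re 6 t
  have r8 := exp_re 8 t
  have r10 := exp_re 10 t
  have i2 := exp_im 2 t
  have i6 := exp_im 6 t
  have i8 := exp_im 8 t
  have i10 := exp_im 10 t
  push_cast at r2 r6 r8 r10 i2 i6 i8 i10
  refine sph w2 w3 w4 (cos (2 * t)) (sin (2 * t)) (cos (8 * t)) (sin (8 * t)) hC hc ?_ ?_ ?_
  · simp only [GG] at h0
    rw [Finset.sum_insert (by decide), Finset.sum_insert (by decide), Finset.sum_insert (by decide),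
      Finset.sum_singleton] at h0
    simp [gg, Complex.mul_re, Complex.mul_im, r2, r6, r8, r10, i2, i6, i8, i10] at h0
    rw [c6, s6, c10, s10] at h0
    linear_combination h0
  · simp only [GG] at h1
    rw [Finset.sum_insert (by decide), Finset.sum_insert (by decide), Finset.sum_insert (by decide),
      Finset.sum_singleton] at h1
    simp [gg, Complex.mul_re, Complex.mul_im, r2, r6, r8, r10, i2, i6, i8, i10] at h1
    rw [c6, s6, c10, s10] at h1
    linear_combination h1
  · simp only [GG] at h2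
    rw [Finset.sum_insert (by decide), Finset.sum_insert (by decide), Finset.sum_insert (by decide),
      Finset.sum_singleton] at h2
    simp [gg, Complex.mul_re, Complex.mul_im, pow_two, r2, r6, r8, r10, i2, i6, i8, i10] at h2
    rw [c6, s6, c10, s10] at h2
    linear_combination h2

lemma perturb_odd (l : ℕ) : Perturbable (2 * l + 5) 1 := by
  set n := 2 * l + 5 with hn
  apply perturb_of (BB l ∪ GG) (zo l n) (by simp [BB])
  · intro k _ j hj
    simp [zo, hj]
  · intro t w hw
    obtain ⟨a2, a3, a4⟩ := w234 l n hn t w hw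
    have hG : ∀ k ∈ GG, ∑ j, (w j : ℂ) * zo l n k j = 0 := by
      intro k hk
      have h1 := Zo_G l n hn w k hk
      rw [a2, a3, a4] at h1
      simp only [Complex.ofReal_zero, zero_mul, add_zero] at h1
      exact (mul_eq_zero.mp h1).resolve_right (aeval_ne l k hk)
    have key : ∀ a ∈ BB l, ∑ j, (w j : ℂ) * zo l n a j = 0 := by
      intro a ha
      apply extract (BB l ∪ GG) (zo l n) t w hw ((BB l).erase a) a (Finset.mem_union_left _ ha)
        (Finset.notMem_erase _ _)
      · simp only [BB, Finset.mem_insert, Finset.mem_Icc] at ha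
        omega
      · intro k hk hka
        rcases Finset.mem_union.mp hk with h | h
        · left
          exact Finset.mem_erase.mpr ⟨hka, h⟩
        · right
          exact hG k h
      · rw [Finset.card_erase_of_mem ha, BB_card]
        omega
    have h01 : w ⟨0, by omega⟩ = 0 ∧ w ⟨1, by omega⟩ = 0 := by
      apply two_pick w 0 1 (by omega) (by omega) (zo l n 1) _ (key 1 (by simp [BB]))
      intro j
      unfold zo
      by_cases h1 : (j : ℕ) < 2
      · rw [if_pos h1]
        unfold zc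
        rw [if_pos rfl]
        interval_cases h : (j : ℕ) <;> simp
      · rw [if_neg h1]
        by_cases h2 : (j : ℕ) < 5
        · rw [if_pos h2, if_neg (by omega), if_neg (by omega)]
          simp [gg]
        · rw [if_neg h2]
          have e0 : (j : ℕ) ≠ 0 := by omega
          have e1 : (j : ℕ) ≠ 1 := by omega
          simp [e0, e1]
    have h5 : ∀ a ∈ Finset.Icc 11 (10 + l), ∀ (h1 : 2 * a - 17 < n) (h2 : 2 * a - 16 < n),
        w ⟨2 * a - 17, h1⟩ = 0 ∧ w ⟨2 * a - 16, h2⟩ = 0 := by
      intro a ha h1 h2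
      apply two_pick w _ _ h1 h2 (zo l n a) _ (key a (by simp only [BB]; exact Finset.mem_insert_of_mem ha))
      rw [Finset.mem_Icc] at ha
      intro j
      unfold zo
      by_cases h1 : (j : ℕ) < 2
      · rw [if_pos h1]
        unfold zc
        rw [if_neg (by omega), if_neg (by omega), if_neg (by omega)]
        simp
      · rw [if_neg h1]
        by_cases h2 : (j : ℕ) < 5
        · rw [if_pos h2, if_neg (by omega : ¬ (j : ℕ) = 2 * a - 17), if_neg (by omega : ¬ (j : ℕ) = 2 * a - 16)]
          have h3 : gg a j = 0 := by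
            unfold gg
            split_ifs <;> first | rfl | omega
          rw [h3]
          simp
        · rw [if_neg h2]
    ext j
    have hj := j.2
    simp only [PiLp.zero_apply]
    by_cases h1 : (j : ℕ) < 5
    · obtain ⟨j, hj'⟩ := j
      simp only at h1
      interval_cases j
      · exact h01.1
      · exact h01.2
      · exact a2
      · exact a3
      · exact a4
    · have ha : ((j : ℕ) - 5) / 2 + 11 ∈ Finset.Icc 11 (10 + l) := by
        rw [Finset.mem_Icc]; omega
      have h2 := h5 _ ha (by omega) (by omega)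
      rcases Nat.even_or_odd (j : ℕ) with he | ho
      · have : j = ⟨2 * (((j : ℕ) - 5) / 2 + 11) - 16, by omega⟩ := by
          ext
          simp only
          rcases he with ⟨q, hq⟩
          omega
        rw [this]
        exact h2.2
      · have : j = ⟨2 * (((j : ℕ) - 5) / 2 + 11) - 17, by omega⟩ := by
          ext
          simp only
          rcases ho with ⟨q, hq⟩
          omega
        rw [this]
        exact h2.1

theorem perturb_one (n : ℕ) (hn : 4 ≤ n) : Perturbable n 1 := by
  rcases Nat.even_or_odd n with he | ho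
  · obtain ⟨l, hl⟩ := he
    have : n = 2 * l := by omega
    rw [this]
    exact perturb_even l (by omega)
  · obtain ⟨l, hl⟩ := ho
    have : n = 2 * (l - 2) + 5 := by omega
    rw [this]
    exact perturb_odd (l - 2)

end Pool.Agent.H110R3.Mu
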